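import Mathlib
import Pool.Agent.H204R3.SP.Lie

/-!
# The Casimir form of a Lie algebra of endomorphisms
-/

set_option autoImplicit false
set_option linter.unusedSectionVars false

namespace Pool.Agent.H24CC

open Module Pool.Agent.H204R3.SP

noncomputable section

variable {K : Type} [Field K] {V : Type} [AddCommGroup V] [Module K V]

/-- The span of the brackets. -/
def Db (g : Submodule K (End K V)) : Submodule K (End K V) :=
  Submodule.span K {X | ∃ A ∈ g, ∃ B ∈ g, X = A * B - B * A}

theorem Db_mem {g : Submodule K (End K V)} {A B : End K V} (hA : A ∈ g) (hB : B ∈ g) :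
    A * B - B * A ∈ Db g := Submodule.subset_span ⟨A, hA, B, hB, rfl⟩

theorem Db_le {g : Submodule K (End K V)} (hbr : ∀ A ∈ g, ∀ B ∈ g, A * B - B * A ∈ g) :
    Db g ≤ g := by
  refine Submodule.span_le.2 ?_
  rintro _ ⟨A, hA, B, hB, rfl⟩
  exact hbr A hA B hB

variable (ω : V →ₗ[K] V →ₗ[K] K)

/-- Operators of rank one. -/
def ro : V →ₗ[K] V →ₗ[K] End K V :=
  LinearMap.mk₂ K (fun a b => (ω b).smulRight a)
    (fun a a' b => by
      ext v
      simp [smul_add])
    (fun c a b => LinearMap.ext fun v => smul_comm (ω b v) c a)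
    (fun a b b' => by
      ext v
      simp [add_smul])
    (fun c a b => by
      ext v
      simp [mul_smul])

theorem ro_apply (a b v : V) : ro ω a b v = ω b v • a := rfl

theorem ro_span [FiniteDimensional K V] (hnd : ∀ u, (∀ v, ω u v = 0) → u = 0) {P : End K V →ₗ[K] End K V}
    (hP : ∀ a b, P (ro ω a b) = 0) : P = 0 := by
  have hsurj : Function.Surjective ω := by
    have hinj : Function.Injective ω := by
      rw [← LinearMap.ker_eq_bot, LinearMap.ker_eq_bot']
      intro u hu
      exact hnd u fun v => by rw [hu]; rfl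
    have : finrank K V = finrank K (V →ₗ[K] K) := (Subspace.dual_finrank_eq (K := K) (V := V)).symm
    exact (LinearMap.injective_iff_surjective_of_finrank_eq_finrank this).1 hinj
  refine LinearMap.ext fun X => ?_
  rw [LinearMap.zero_apply]
  let b := Module.finBasis K V
  have h1 : X = ∑ i, (b.coord i).smulRight (X (b i)) := by
    refine b.ext fun j => ?_
    rw [LinearMap.sum_apply, Finset.sum_eq_single j]
    · simp
    · intro i _ hi
      simp [Finsupp.single_apply, hi, Ne.symm hi]
    · intro h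
      exact absurd (Finset.mem_univ j) h
  rw [h1, map_sum]
  refine Finset.sum_eq_zero fun i _ => ?_
  obtain ⟨c, hc⟩ := hsurj (b.coord i)
  have h2 := hP (X (b i)) c
  have h3 : ro ω (X (b i)) c = (b.coord i).smulRight (X (b i)) := by
    refine LinearMap.ext fun v => ?_
    rw [ro_apply, hc]
    rfl
  rw [← h3, h2]

/-- Quadrilinear forms. -/
def ML (Q : V →ₗ[K] V →ₗ[K] V →ₗ[K] V →ₗ[K] K) :
    MultilinearMap K (fun _ : Fin 2 × Fin 2 => V) K where
  toFun v := Q (v (0, 0)) (v (0, 1)) (v (1, 0)) (v (1, 1))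
  map_update_add' := by
    intro h v i x y
    rcases i with ⟨i, j⟩
    have e : h = instDecidableEqProd := Subsingleton.elim _ _
    subst e
    fin_cases i <;> fin_cases j <;> simp [Function.update_apply, Prod.ext_iff]
  map_update_smul' := by
    intro h v i c x
    rcases i with ⟨i, j⟩
    have e : h = instDecidableEqProd := Subsingleton.elim _ _
    subst e
    fin_cases i <;> fin_cases j <;> simp [Function.update_apply, Prod.ext_iff]

theorem ML_apply (Q : V →ₗ[K] V →ₗ[K] V →ₗ[K] V →ₗ[K] K) (v : Fin 2 × Fin 2 → V) :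
    ML Q v = Q (v (0, 0)) (v (0, 1)) (v (1, 0)) (v (1, 1)) := rfl

/-- A vector. -/
def vec4 (a b c d : V) : Fin 2 × Fin 2 → V := fun k => ![![a, b], ![c, d]] k.1 k.2

theorem ML_kills {Q : V →ₗ[K] V →ₗ[K] V →ₗ[K] V →ₗ[K] K} {T : End K V} :
    Kills T (ML Q) ↔ ∀ a b c d, Q (T a) b c d + Q a (T b) c d + Q a b (T c) d + Q a b c (T d) = 0 := by
  have key : ∀ v : Fin 2 × Fin 2 → V, ∑ k, ML Q (Function.update v k (T (v k))) =
      Q (T (v (0, 0))) (v (0, 1)) (v (1, 0)) (v (1, 1)) +
      Q (v (0, 0)) (T (v (0, 1))) (v (1, 0)) (v (1, 1)) +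
      Q (v (0, 0)) (v (0, 1)) (T (v (1, 0))) (v (1, 1)) +
      Q (v (0, 0)) (v (0, 1)) (v (1, 0)) (T (v (1, 1))) := by
    intro v
    rw [Fintype.sum_prod_type, Fin.sum_univ_two, Fin.sum_univ_two, Fin.sum_univ_two]
    simp only [ML_apply]
    simp [Function.update_apply, Prod.ext_iff]
    ring
  constructor
  · intro h a b c d
    have h1 := h (vec4 a b c d)
    rw [key] at h1
    exact h1
  · intro h v
    rw [key]
    exact h _ _ _ _

/-- Bilinear forms. -/
def BL (β : V →ₗ[K] V →ₗ[K] K) : MultilinearMap K (fun _ : Fin 1 × Fin 2 => V) K where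
  toFun v := β (v (0, 0)) (v (0, 1))
  map_update_add' := by
    intro h v i x y
    rcases i with ⟨i, j⟩
    have e : h = instDecidableEqProd := Subsingleton.elim _ _
    subst e
    fin_cases i <;> fin_cases j <;> simp [Function.update_apply, Prod.ext_iff]
  map_update_smul' := by
    intro h v i c x
    rcases i with ⟨i, j⟩
    have e : h = instDecidableEqProd := Subsingleton.elim _ _
    subst e
    fin_cases i <;> fin_cases j <;> simp [Function.update_apply, Prod.ext_iff]

theorem BL_apply (β : V →ₗ[K] V →ₗ[K] K) (v : Fin 1 × Fin 2 → V) :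
    BL β v = β (v (0, 0)) (v (0, 1)) := rfl

/-- A vector. -/
def vec2 (a b : V) : Fin 1 × Fin 2 → V := fun k => ![a, b] k.2

theorem sum_two (T : End K V) (φ : MultilinearMap K (fun _ : Fin 1 × Fin 2 => V) K)
    (v : Fin 1 × Fin 2 → V) : ∑ k, φ (Function.update v k (T (v k))) =
      φ (vec2 (T (v (0, 0))) (v (0, 1))) + φ (vec2 (v (0, 0)) (T (v (0, 1)))) := by
  rw [Fintype.sum_prod_type, Fin.sum_univ_one, Fin.sum_univ_two]
  congr 2
  · funext k
    rcases k with ⟨i, j⟩
    fin_cases i
    fin_cases j <;> simp [vec2, Function.update_apply, Prod.ext_iff]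
  · funext k
    rcases k with ⟨i, j⟩
    fin_cases i
    fin_cases j <;> simp [vec2, Function.update_apply, Prod.ext_iff]

theorem BL_kills {β : V →ₗ[K] V →ₗ[K] K} {T : End K V} :
    Kills T (BL β) ↔ ∀ a b, β (T a) b + β a (T b) = 0 := by
  constructor
  · intro h a b
    have h1 := h (vec2 a b)
    rw [sum_two] at h1
    exact h1
  · intro h v
    rw [sum_two]
    exact h _ _

/-- All forms in two variables are of this kind. -/
theorem exists_BL (φ : MultilinearMap K (fun _ : Fin 1 × Fin 2 => V) K) : ∃ β, φ = BL β := by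
  have h0 : ∀ v : Fin 1 × Fin 2 → V, v = vec2 (v (0, 0)) (v (0, 1)) := by
    intro v
    funext k
    rcases k with ⟨i, j⟩
    fin_cases i
    fin_cases j <;> rfl
  have hu0 : ∀ a b x : V, vec2 x b = Function.update (vec2 a b) (0, 0) x := by
    intro a b x
    funext k
    rcases k with ⟨i, j⟩
    fin_cases i
    fin_cases j <;> simp [vec2, Function.update_apply, Prod.ext_iff]
  have hu1 : ∀ a b x : V, vec2 a x = Function.update (vec2 a b) (0, 1) x := by
    intro a b x
    funext k
    rcases k with ⟨i, j⟩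
    fin_cases i
    fin_cases j <;> simp [vec2, Function.update_apply, Prod.ext_iff]
  refine ⟨LinearMap.mk₂ K (fun a b => φ (vec2 a b)) (fun a a' b => ?_) (fun c a b => ?_)
    (fun a b b' => ?_) (fun c a b => ?_), ?_⟩
  · rw [hu0 0 b (a + a'), hu0 0 b a, hu0 0 b a', MultilinearMap.map_update_add]
  · rw [hu0 0 b (c • a), hu0 0 b a, MultilinearMap.map_update_smul]
  · rw [hu1 a 0 (b + b'), hu1 a 0 b, hu1 a 0 b', MultilinearMap.map_update_add]
  · rw [hu1 a 0 (c • b), hu1 a 0 b, MultilinearMap.map_update_smul]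
  · refine MultilinearMap.ext fun v => ?_
    rw [BL_apply]
    conv_lhs => rw [h0 v]
    rfl

variable [FiniteDimensional K V]

/-- The orthogonal projector. -/
theorem exists_proj (a : Submodule K (End K V))
    (h : ∀ X ∈ a, (∀ Y ∈ a, LinearMap.trace K V (X * Y) = 0) → X = 0) :
    ∃ P : End K V →ₗ[K] End K V, (∀ X, P X ∈ a) ∧
      ∀ X, ∀ Y ∈ a, LinearMap.trace K V ((X - P X) * Y) = 0 := by
  let f : End K V →ₗ[K] Dual K a :=
    LinearMap.mk₂ K (fun (Z : End K V) (Y : a) => LinearMap.trace K V (Z * Y))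
      (fun a b c => by rw [add_mul, map_add])
      (fun a b c => by rw [smul_mul_assoc, map_smul])
      (fun a b c => by rw [Submodule.coe_add, mul_add, map_add])
      (fun a b c => by rw [Submodule.coe_smul, mul_smul_comm, map_smul])
  have hinj : Function.Injective (f ∘ₗ a.subtype) := by
    rw [← LinearMap.ker_eq_bot, LinearMap.ker_eq_bot']
    intro X hX
    apply Subtype.ext
    refine h X X.2 fun Y hY => ?_
    exact LinearMap.congr_fun hX ⟨Y, hY⟩
  have hfin : finrank K a = finrank K (Dual K a) := (Subspace.dual_finrank_eq (K := K) (V := a)).symm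
  let e := LinearEquiv.ofBijective (f ∘ₗ a.subtype)
    ⟨hinj, (LinearMap.injective_iff_surjective_of_finrank_eq_finrank hfin).1 hinj⟩
  refine ⟨a.subtype ∘ₗ e.symm.toLinearMap ∘ₗ f, fun X => SetLike.coe_mem _, fun X Y hY => ?_⟩
  have h1 : f ((e.symm (f X) : a) : End K V) = f X := e.apply_symm_apply (f X)
  have h2 := LinearMap.congr_fun h1 ⟨Y, hY⟩
  rw [sub_mul, map_sub, sub_eq_zero]
  exact h2.symm

section proj

variable {a : Submodule K (End K V)}
  (h : ∀ X ∈ a, (∀ Y ∈ a, LinearMap.trace K V (X * Y) = 0) → X = 0)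
  {P : End K V →ₗ[K] End K V} (hP : ∀ X, P X ∈ a)
  (hP' : ∀ X, ∀ Y ∈ a, LinearMap.trace K V ((X - P X) * Y) = 0)
include h hP hP'

/-- Uniqueness. -/
theorem proj_uniq {X Z : End K V} (hZ : Z ∈ a)
    (hZ' : ∀ Y ∈ a, LinearMap.trace K V ((X - Z) * Y) = 0) : P X = Z := by
  rw [← sub_eq_zero]
  refine h _ (a.sub_mem (hP X) hZ) fun Y hY => ?_
  have h1 := hP' X Y hY
  have h2 := hZ' Y hY
  have h3 : (P X - Z) * Y = (X - Z) * Y - (X - P X) * Y := by noncomm_ring
  rw [h3, map_sub, h1, h2, sub_zero]

theorem proj_id {X : End K V} (hX : X ∈ a) : P X = X :=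
  proj_uniq h hP hP' hX fun Y _ => by rw [sub_self, zero_mul, map_zero]

/-- Equivariance. -/
theorem proj_conj {r s : End K V} (hsr : s * r = 1) (hr : ∀ X ∈ a, r * X * s ∈ a)
    (hs : ∀ X ∈ a, s * X * r ∈ a) (X : End K V) : P (r * X * s) = r * P X * s := by
  refine proj_uniq h hP hP' (hr _ (hP X)) fun Y hY => ?_
  have h1 := hP' X _ (hs Y hY)
  rw [← h1]
  have h2 : (r * X * s - r * P X * s) * Y = r * ((X - P X) * (s * Y)) := by noncomm_ring
  have h3 : (X - P X) * (s * Y * r) = ((X - P X) * (s * Y)) * r := by noncomm_ring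
  rw [h2, h3, LinearMap.trace_mul_comm]

end proj

/-- The Casimir form. -/
def cas (P : End K V →ₗ[K] End K V) : V →ₗ[K] V →ₗ[K] V →ₗ[K] V →ₗ[K] K :=
  LinearMap.mk₂ K (fun a b => (LinearMap.flip ω) ∘ₗ (P (ro ω a b)))
    (fun a a' b => by
      ext c d
      simp)
    (fun c a b => by
      ext c d
      simp)
    (fun a b b' => by
      ext c d
      simp)
    (fun c a b => by
      ext c d
      simp)

theorem cas_apply (P : End K V →ₗ[K] End K V) (a b c d : V) :
    cas ω P a b c d = ω d (P (ro ω a b) c) := rfl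

variable {ω} (hnd : ∀ u, (∀ v, ω u v = 0) → u = 0) (halt : ∀ u v, ω u v = - ω v u)
include hnd halt

/-- An operator which kills the Casimir form commutes with the projector. -/
theorem cas_kills {P : End K V →ₗ[K] End K V} {T : End K V}
    (hT : ∀ u v, ω (T u) v + ω u (T v) = 0) (hk : Kills T (ML (cas ω P))) (X : End K V) :
    P (T * X - X * T) = T * P X - P X * T := by
  rw [ML_kills] at hk
  let Q : End K V →ₗ[K] End K V := P ∘ₗ (LinearMap.mulLeft K T - LinearMap.mulRight K T) -
    (LinearMap.mulLeft K T - LinearMap.mulRight K T) ∘ₗ P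
  have hQ : ∀ X, Q X = P (T * X - X * T) - (T * P X - P X * T) := fun X => rfl
  have h0 : Q = 0 := by
    refine ro_span ω hnd fun a b => ?_
    refine LinearMap.ext fun c => ?_
    rw [LinearMap.zero_apply]
    apply hnd
    intro d
    rw [halt]
    rw [neg_eq_zero, hQ]
    have h1 : T * ro ω a b - ro ω a b * T = ro ω (T a) b + ro ω a (T b) := by
      refine LinearMap.ext fun v => ?_
      have h2 : ω (T b) v = - ω b (T v) := eq_neg_of_add_eq_zero_left (hT b v)
      rw [LinearMap.sub_apply, End.mul_apply, End.mul_apply, ro_apply, ro_apply, map_smul,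
        LinearMap.add_apply, ro_apply, ro_apply, h2, neg_smul, sub_eq_add_neg]
    have h2 := hk a b c d
    simp only [cas_apply] at h2
    have h3 : ω (T d) (P (ro ω a b) c) = - ω d (T (P (ro ω a b) c)) :=
      eq_neg_of_add_eq_zero_left (hT _ _)
    rw [h1, map_add, LinearMap.sub_apply, LinearMap.sub_apply, LinearMap.add_apply,
      End.mul_apply, End.mul_apply, map_sub, map_add, map_sub]
    rw [h3] at h2
    linear_combination h2
  have h1 := LinearMap.congr_fun h0 X
  rw [hQ, LinearMap.zero_apply] at h1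
  exact sub_eq_zero.1 h1

/-- An operator which commutes with the projector kills the Casimir form. -/
theorem kills_cas {P : End K V →ₗ[K] End K V} {T : End K V}
    (hT : ∀ u v, ω (T u) v + ω u (T v) = 0)
    (hP : ∀ X, P (T * X - X * T) = T * P X - P X * T) : Kills T (ML (cas ω P)) := by
  rw [ML_kills]
  intro a b c d
  simp only [cas_apply]
  have h1 : T * ro ω a b - ro ω a b * T = ro ω (T a) b + ro ω a (T b) := by
    refine LinearMap.ext fun v => ?_
    have h2 : ω (T b) v = - ω b (T v) := eq_neg_of_add_eq_zero_left (hT b v)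
    rw [LinearMap.sub_apply, End.mul_apply, End.mul_apply, ro_apply, ro_apply, map_smul,
      LinearMap.add_apply, ro_apply, ro_apply, h2, neg_smul, sub_eq_add_neg]
  have h2 := hP (ro ω a b)
  rw [h1, map_add] at h2
  have h3 : ω (T d) (P (ro ω a b) c) = - ω d (T (P (ro ω a b) c)) :=
    eq_neg_of_add_eq_zero_left (hT _ _)
  have h4 := congrArg (fun y => ω d y) (LinearMap.congr_fun h2 c)
  simp only [LinearMap.add_apply, LinearMap.sub_apply, End.mul_apply, map_add, map_sub] at h4
  rw [h3]
  linear_combination h4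

omit hnd halt

variable {g : Submodule K (End K V)} (hbr : ∀ A ∈ g, ∀ B ∈ g, A * B - B * A ∈ g)
  (h : ∀ X ∈ Db g, (∀ Y ∈ Db g, LinearMap.trace K V (X * Y) = 0) → X = 0)
  {P : End K V →ₗ[K] End K V} (hP : ∀ X, P X ∈ Db g)
  (hP' : ∀ X, ∀ Y ∈ Db g, LinearMap.trace K V ((X - P X) * Y) = 0)
include hbr h hP hP'

theorem tr_br (A B C : End K V) : LinearMap.trace K V ((A * B - B * A) * C) =
    LinearMap.trace K V (A * (B * C - C * B)) := by
  have h1 : (A * B - B * A) * C = A * B * C - B * (A * C) := by noncomm_ring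
  have h2 : A * (B * C - C * B) = A * B * C - (A * C) * B := by noncomm_ring
  rw [h1, h2, map_sub, map_sub, LinearMap.trace_mul_comm K B]

/-- **The main lemma**: the difference of `T` and its projection commutes with `g`. -/
theorem diff_comm {T : End K V} (hT : ∀ X, P (T * X - X * T) = T * P X - P X * T)
    (hTc : ∀ f, (∀ X ∈ g, f * X = X * f) → T * f = f * T) :
    ∀ X ∈ g, (T - P T) * X = X * (T - P T) := by
  have hle := Db_le hbr
  have h1 : ∀ Y ∈ Db g, (T - P T) * Y = Y * (T - P T) := by
    intro Y hY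
    rw [← sub_eq_zero]
    have hm : (T - P T) * Y - Y * (T - P T) ∈ Db g := by
      have h2 : (T - P T) * Y - Y * (T - P T) = (T * Y - Y * T) - (P T * Y - Y * P T) := by
        noncomm_ring
      have h3 : T * Y - Y * T ∈ Db g := by
        have h4 := hT Y
        rw [proj_id h hP hP' hY] at h4
        rw [← h4]
        exact hP _
      rw [h2]
      exact (Db g).sub_mem h3 (Db_mem (hle (hP T)) (hle hY))
    refine h _ hm fun Y' hY' => ?_
    rw [tr_br hbr h hP hP']
    exact hP' T _ (Db_mem (hle hY) (hle hY'))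
  intro X hX
  have hc : ∀ Y ∈ g, (X - P X) * Y = Y * (X - P X) := by
    intro Y hY
    rw [← sub_eq_zero]
    refine h _ (Db_mem (g.sub_mem hX (hle (hP X))) hY) fun Y' hY' => ?_
    rw [tr_br hbr h hP hP']
    exact hP' X _ (Db_mem hY (hle hY'))
  have h2 := hTc _ hc
  have h3 := hc _ (hle (hP T))
  have h4 := h1 _ (hP X)
  have h5 : (T - P T) * (X - P X) = (X - P X) * (T - P T) := by
    rw [sub_mul T, h2, ← h3, ← mul_sub]
  have h6 : (T - P T) * X = (T - P T) * (X - P X) + (T - P T) * P X := by noncomm_ring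
  have h7 : X * (T - P T) = (X - P X) * (T - P T) + P X * (T - P T) := by noncomm_ring
  rw [h6, h7, h4, h5]

/-- Operators which normalize `g` commute with the projector. -/
theorem proj_norm {T : End K V} (hT : ∀ X ∈ g, T * X - X * T ∈ g) (X : End K V) :
    P (T * X - X * T) = T * P X - P X * T := by
  have hD : ∀ Y ∈ Db g, T * Y - Y * T ∈ Db g := by
    intro Y hY
    refine Submodule.span_induction (p := fun Y _ => T * Y - Y * T ∈ Db g) ?_ ?_ ?_ ?_ hY
    · rintro _ ⟨A, hA, B, hB, rfl⟩
      have h1 : T * (A * B - B * A) - (A * B - B * A) * T =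
          ((T * A - A * T) * B - B * (T * A - A * T)) +
            (A * (T * B - B * T) - (T * B - B * T) * A) := by noncomm_ring
      rw [h1]
      exact (Db g).add_mem (Db_mem (hT A hA) hB) (Db_mem hA (hT B hB))
    · rw [mul_zero, zero_mul, sub_zero]
      exact Submodule.zero_mem _
    · intro x y _ _ h1 h2
      have h3 : T * (x + y) - (x + y) * T = (T * x - x * T) + (T * y - y * T) := by noncomm_ring
      rw [h3]
      exact Submodule.add_mem _ h1 h2
    · intro c x _ h1
      rw [mul_smul_comm, smul_mul_assoc, ← smul_sub]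
      exact Submodule.smul_mem _ _ h1
  refine proj_uniq h hP hP' (hD _ (hP X)) fun Y hY => ?_
  have h1 := hP' X _ (hD Y hY)
  have h2 := tr_br hbr h hP hP' (X - P X) T Y
  have h3 : (T * X - X * T - (T * P X - P X * T)) * Y = -(((X - P X) * T - T * (X - P X)) * Y) := by
    noncomm_ring
  rw [h3, map_neg, h2, h1, neg_zero]

/-- Operators which commute with the projector normalize `g`. -/
theorem norm_of_comm {T : End K V} (hT : ∀ X, P (T * X - X * T) = T * P X - P X * T)
    (hTc : ∀ f, (∀ X ∈ g, f * X = X * f) → T * f = f * T) : ∀ X ∈ g, T * X - X * T ∈ g := by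
  intro X hX
  have h1 := diff_comm hbr h hP hP' hT hTc X hX
  have h2 : T * X - X * T = ((T - P T) * X - X * (T - P T)) + (P T * X - X * P T) := by
    noncomm_ring
  rw [h2, h1, sub_self, zero_add]
  exact hbr _ (Db_le hbr (hP T)) _ hX

/-- **The bracket of two operators which commute with the projector**. -/
theorem bracket_mem {T T' : End K V} (hT : ∀ X, P (T * X - X * T) = T * P X - P X * T)
    (hTc : ∀ f, (∀ X ∈ g, f * X = X * f) → T * f = f * T)
    (hT' : ∀ X, P (T' * X - X * T') = T' * P X - P X * T')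
    (hTc' : ∀ f, (∀ X ∈ g, f * X = X * f) → T' * f = f * T') : T * T' - T' * T ∈ Db g := by
  have hle := Db_le hbr
  have h1 := diff_comm hbr h hP hP' hT hTc
  have h2 := diff_comm hbr h hP hP' hT' hTc'
  have h3 := hTc' _ h1
  have h4 := h2 _ (hle (hP T))
  have h5 : T * T' - T' * T = (P T * P T' - P T' * P T) := by
    have e1 : T = (T - P T) + P T := by abel
    have e2 : T' = (T' - P T') + P T' := by abel
    calc T * T' - T' * T = ((T - P T) * T' - T' * (T - P T)) + (P T * T' - T' * P T) := by
          noncomm_ring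
      _ = P T * T' - T' * P T := by rw [h3, sub_self, zero_add]
      _ = (P T * (T' - P T') - (T' - P T') * P T) + (P T * P T' - P T' * P T) := by
          noncomm_ring
      _ = _ := by rw [h4, sub_self, zero_add]
  rw [h5]
  exact Db_mem (hle (hP T)) (hle (hP T'))

end

end Pool.Agent.H24CC
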