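import Mathlib
import Pool.Agent.N865.GSA
import Pool.Agent.W529.Ta.Main
import Pool.Agent.H24CC.C1

/-!
# Nondegeneracy of the trace form; extension of scalars
-/

set_option autoImplicit false
set_option linter.unusedSectionVars false

namespace Pool.Agent.H24CC

open Module Pool.Agent.H204R3.SP Pool.Agent.N183.U8 LieAlgebra LieModule TensorProduct

noncomputable section

section cr

attribute [local instance 100] LieRing.ofAssociativeRing

/-- The trace form of a completely reducible linear Lie algebra is nondegenerate on the derived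
algebra. -/
theorem nd_of_cr {V : Type} [AddCommGroup V] [Module ℂ V] [FiniteDimensional ℂ V]
    {L : Submodule ℂ (End ℂ V)} (hBr : Br L) (hCR : CR L) {X : End ℂ V} (hX : X ∈ Db L)
    (hX' : ∀ Y ∈ Db L, LinearMap.trace ℂ V (X * Y) = 0) : X = 0 := by
  let 𝔏 : LieSubalgebra ℂ (End ℂ V) :=
    { L with
      lie_mem' := by
        intro x y hx hy
        rw [LieRing.of_associative_ring_bracket]
        exact hBr x hx y hy }
  have hact : ∀ (x : 𝔏) (v : V), ⁅x, v⁆ = (x : End ℂ V) v := fun x v => rfl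
  let mk : ∀ W : Submodule ℂ V, Stb L W → LieSubmodule ℂ 𝔏 V := fun W hW =>
    { W with
      lie_mem := by
        intro x m hm
        exact hW x x.2 m hm }
  have hst : ∀ N : LieSubmodule ℂ 𝔏 V, Stb L N.toSubmodule := fun N A hA u hu =>
    N.lie_mem (x := (⟨A, hA⟩ : 𝔏)) hu
  have hD : ∀ x : 𝔏, x ∈ Pool.Agent.N865.GSA.Der 𝔏 → (x : End ℂ V) ∈ Db L := by
    intro x hx
    replace hx : x ∈ Submodule.span ℂ {m | ∃ u v : 𝔏, ⁅u, v⁆ = m} := by
      rw [← LieSubmodule.mem_toSubmodule, LieSubmodule.lieIdeal_oper_eq_linear_span'] at hx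
      simpa using hx
    refine Submodule.span_induction (p := fun (x : 𝔏) _ ↦ (x : End ℂ V) ∈ Db L)
      ?_ ?_ (fun u v _ _ hu hv ↦ ?_) (fun t u _ hu ↦ ?_) hx
    · rintro _ ⟨u, v, rfl⟩
      exact Db_mem u.2 v.2
    · exact Submodule.zero_mem _
    · exact Submodule.add_mem _ hu hv
    · exact Submodule.smul_mem _ _ hu
  obtain ⟨x, hx, rfl⟩ : ∃ x : 𝔏, x ∈ Pool.Agent.N865.GSA.Der 𝔏 ∧ (x : End ℂ V) = X := by
    refine Submodule.span_induction
      (p := fun X _ ↦ ∃ x : 𝔏, x ∈ Pool.Agent.N865.GSA.Der 𝔏 ∧ (x : End ℂ V) = X)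
      ?_ ?_ ?_ ?_ hX
    · rintro _ ⟨A, hA, B, hB, rfl⟩
      exact ⟨⁅(⟨A, hA⟩ : 𝔏), ⟨B, hB⟩⁆,
        LieSubmodule.lie_mem_lie (LieSubmodule.mem_top _) (LieSubmodule.mem_top _), rfl⟩
    · exact ⟨0, Submodule.zero_mem _, rfl⟩
    · rintro _ _ _ _ ⟨x, hx, rfl⟩ ⟨y, hy, rfl⟩
      exact ⟨x + y, add_mem hx hy, rfl⟩
    · rintro c _ _ ⟨x, hx, rfl⟩
      exact ⟨c • x, Submodule.smul_mem (Pool.Agent.N865.GSA.Der 𝔏).toSubmodule c hx, rfl⟩
  have h := Pool.Agent.N865.GSA.inf_perp (𝔏 := 𝔏) V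
    (by
      intro x hx
      apply Subtype.ext
      ext v
      exact hx v)
    (by
      intro N
      obtain ⟨W, hW, hW'⟩ := hCR N.toSubmodule (hst N)
      refine ⟨mk W hW, ?_, ?_⟩
      · apply LieSubmodule.toSubmodule_injective
        have := hW'.inf_eq_bot
        simpa using this
      · apply LieSubmodule.toSubmodule_injective
        have := hW'.sup_eq_top
        simpa using this)
    (Pool.Agent.N865.GSA.Der 𝔏) x hx ⟨hx, fun y hy => hX' _ (hD y hy)⟩
  rw [h]
  rfl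

end cr

/-! ### Extension of scalars -/

section bc

variable {K Ω : Type} [Field K] [Field Ω] [Algebra K Ω] {V : Type} [AddCommGroup V] [Module K V]
  {ν : Type} [Fintype ν] [DecidableEq ν] (b : Basis ν K V)
  {Γ : Type} [Group Γ] {ρ : Representation K Γ V} {χ : Γ →* K}

theorem eq_zero_of_dual {z : Ω} (h : ∀ π : Ω →ₗ[K] K, π z = 0) : z = 0 :=
  (Module.forall_dual_apply_eq_zero_iff K z).1 h

theorem desc_tate {m : ℕ} {F : MultilinearMap Ω (fun _ : Fin m × Fin 2 => Ω ⊗[K] V) Ω}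
    (hF : IsTate (bcr ρ Ω) (bcc χ Ω) m F) (π : Ω →ₗ[K] K) :
    IsTate ρ χ m (Pool.Agent.W529.Ta.desc π F) := by
  obtain ⟨Δ, hΔ, h⟩ := hF
  refine ⟨Δ, hΔ, fun s hs v => ?_⟩
  rw [Pool.Agent.W529.Ta.desc_apply, Pool.Agent.W529.Ta.desc_apply]
  have h1 := h s hs (fun l => (1 : Ω) ⊗ₜ[K] v l)
  have h2 : (fun k => bcr ρ Ω s ((1 : Ω) ⊗ₜ[K] v k)) = fun k => (1 : Ω) ⊗ₜ[K] ρ s (v k) := by
    funext k
    rw [bcr_tmul]
  rw [h2, bcc_apply, ← map_pow, ← Algebra.smul_def] at h1
  rw [h1, map_smul, smul_eq_mul]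

include b in
/-- Extension of scalars maps the Lie algebra to the Lie algebra. -/
theorem bc_lieT {Y : End K V} (hY : Y ∈ lieT ρ χ) :
    Y.baseChange Ω ∈ lieT (bcr ρ Ω) (bcc χ Ω) := by
  intro m F hF
  let D : MultilinearMap Ω (fun _ : Fin m × Fin 2 => Ω ⊗[K] V) Ω :=
    ∑ k, F.compLinearMap (Function.update (fun _ => LinearMap.id) k (Y.baseChange Ω))
  have hD : ∀ v, D v = ∑ k, F (Function.update v k (Y.baseChange Ω (v k))) := by
    intro v
    change (∑ k, F.compLinearMap (Function.update (fun _ => LinearMap.id) k (Y.baseChange Ω))) v = _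
    rw [MultilinearMap.sum_apply]
    refine Finset.sum_congr rfl fun k _ => ?_
    rw [MultilinearMap.compLinearMap_apply]
    congr 1
    funext l
    by_cases hl : l = k
    · subst hl
      rw [Function.update_self, Function.update_self]
    · rw [Function.update_of_ne hl, Function.update_of_ne hl, LinearMap.id_apply]
  have h0 : D = 0 := by
    refine Basis.ext_multilinear (fun _ => b.baseChange Ω) fun I => ?_
    rw [hD, MultilinearMap.zero_apply]
    refine eq_zero_of_dual (K := K) fun π => ?_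
    have h1 := hY m _ (desc_tate hF π) (fun l => b (I l))
    rw [map_sum, ← h1]
    refine Finset.sum_congr rfl fun k _ => ?_
    rw [Pool.Agent.W529.Ta.desc_apply]
    congr 2
    funext l
    by_cases hl : l = k
    · subst hl
      rw [Function.update_self, Function.update_self, Basis.baseChange_apply,
        LinearMap.baseChange_tmul]
    · rw [Function.update_of_ne hl, Function.update_of_ne hl, Basis.baseChange_apply]
  intro v
  rw [← hD, h0, MultilinearMap.zero_apply]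

/-- Components of vectors. -/
def cmp (π : Ω →ₗ[K] K) : (Ω ⊗[K] V) →ₗ[K] V :=
  (TensorProduct.lid K V).toLinearMap ∘ₗ (LinearMap.rTensor V π)

theorem cmp_tmul (π : Ω →ₗ[K] K) (c : Ω) (v : V) : cmp π (c ⊗ₜ[K] v) = π c • v := rfl

/-- Components of operators. -/
def cmE (π : Ω →ₗ[K] K) (X : End Ω (Ω ⊗[K] V)) : End K V :=
  cmp π ∘ₗ (X.restrictScalars K) ∘ₗ (TensorProduct.mk K Ω V 1)

theorem cmE_apply (π : Ω →ₗ[K] K) (X : End Ω (Ω ⊗[K] V)) (v : V) :
    cmE π X v = cmp π (X ((1 : Ω) ⊗ₜ[K] v)) := rfl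

theorem bcm_cmp {m : ℕ} (π : Ω →ₗ[K] K)
    (φ : MultilinearMap K (fun _ : Fin m × Fin 2 => V) K) (v : Fin m × Fin 2 → V)
    (k : Fin m × Fin 2) (z : Ω ⊗[K] V) :
    π (bcm (Ω := Ω) b φ (Function.update (fun l => (1 : Ω) ⊗ₜ[K] v l) k z)) =
      φ (Function.update v k (cmp π z)) := by
  induction z with
  | zero => rw [map_zero, MultilinearMap.map_update_zero, MultilinearMap.map_update_zero, map_zero]
  | add x y hx hy =>
    rw [map_add, MultilinearMap.map_update_add, MultilinearMap.map_update_add, map_add, hx, hy]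
  | tmul c w =>
    have h1 : c ⊗ₜ[K] w = c • ((1 : Ω) ⊗ₜ[K] w) := by
      rw [TensorProduct.smul_tmul', smul_eq_mul, mul_one]
    have h2 : Function.update (fun l => (1 : Ω) ⊗ₜ[K] v l) k ((1 : Ω) ⊗ₜ[K] w) =
        fun l => (1 : Ω) ⊗ₜ[K] (Function.update v k w) l := by
      funext l
      by_cases hl : l = k
      · subst hl
        rw [Function.update_self, Function.update_self]
      · rw [Function.update_of_ne hl, Function.update_of_ne hl]
    rw [cmp_tmul, h1, MultilinearMap.map_update_smul, h2, bcm_one, smul_eq_mul, mul_comm,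
      ← Algebra.smul_def, map_smul, MultilinearMap.map_update_smul, smul_eq_mul, smul_eq_mul,
      mul_comm]

include b in
/-- The components of an element of the large Lie algebra are in the small one. -/
theorem cmE_lieT {X : End Ω (Ω ⊗[K] V)} (hX : X ∈ lieT (bcr ρ Ω) (bcc χ Ω)) (π : Ω →ₗ[K] K) :
    cmE π X ∈ lieT ρ χ := by
  intro m φ hφ v
  have h1 := hX m _ (bcm_tate (Ω := Ω) b ρ χ φ hφ) (fun l => (1 : Ω) ⊗ₜ[K] v l)
  have h2 := congrArg π h1
  rw [map_zero, map_sum] at h2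
  rw [← h2]
  refine Finset.sum_congr rfl fun k _ => ?_
  rw [bcm_cmp, cmE_apply]

theorem cmE_mat (π : Ω →ₗ[K] K) (X : End Ω (Ω ⊗[K] V)) :
    LinearMap.toMatrix b b (cmE π X) =
      (LinearMap.toMatrix (b.baseChange Ω) (b.baseChange Ω) X).map π := by
  ext p q
  rw [LinearMap.toMatrix_apply, Matrix.map_apply, LinearMap.toMatrix_apply, cmE_apply]
  have h1 : X ((1 : Ω) ⊗ₜ[K] b q) = ∑ i, (b.baseChange Ω).repr (X ((1 : Ω) ⊗ₜ[K] b q)) i •
      (b.baseChange Ω i) := ((b.baseChange Ω).sum_repr _).symm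
  have h2 : cmp π (X ((1 : Ω) ⊗ₜ[K] b q)) =
      ∑ i, π ((b.baseChange Ω).repr (X ((1 : Ω) ⊗ₜ[K] b q)) i) • b i := by
    conv_lhs => rw [h1]
    rw [map_sum]
    refine Finset.sum_congr rfl fun i _ => ?_
    rw [Basis.baseChange_apply, TensorProduct.smul_tmul', smul_eq_mul, mul_one, cmp_tmul]
  rw [h2, map_sum, Finset.sum_apply']
  simp only [map_smul, Finsupp.smul_apply, Basis.repr_self, smul_eq_mul]
  rw [Finset.sum_eq_single p]
  · rw [Finsupp.single_eq_same, mul_one, Basis.baseChange_apply]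
  · intro i _ hi
    rw [Finsupp.single_apply, if_neg hi, mul_zero]
  · intro h
    exact absurd (Finset.mem_univ p) h

end bc

end

end Pool.Agent.H24CC
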