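import Mathlib
import Pool.Agent.Y224.TS.D7
import Pool.Agent.H24CC.C2

/-!
# The Lie algebra of the Tate tensors
-/

set_option autoImplicit false
set_option linter.unusedSectionVars false

namespace Pool.Agent.H24CC

open Matrix Module Pool.Agent.W437.HC Pool.Agent.W437.HD Pool.Agent.W548.Odd Pool.Agent.Y90
open Pool.Agent.H204R3.SP Pool.Agent.H204R3.GP TensorProduct Pool.Agent.W522.U
open Pool.Agent.Y224.TS Pool.Agent.Y224.TS.St
open Pool.Agent.Y90.St (IsHom)
open Pool.Agent.N183.U8 (Br CR Stb)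

noncomputable section

theorem tmul_inj {K Ω : Type} [Field K] [Field Ω] [Algebra K Ω] {V : Type} [AddCommGroup V]
    [Module K V] {v : V} (h : (1 : Ω) ⊗ₜ[K] v = 0) : v = 0 := by
  obtain ⟨π, hπ⟩ := LinearMap.exists_leftInverse_of_injective
    ((Algebra.linearMap K Ω)) (LinearMap.ker_eq_bot.2 (algebraMap K Ω).injective)
  have h1 : π 1 = 1 := by
    have h2 := LinearMap.congr_fun hπ 1
    rwa [LinearMap.comp_apply, Algebra.linearMap_apply, map_one, LinearMap.id_apply] at h2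
  have h2 := congrArg (cmp π) h
  rwa [cmp_tmul, h1, one_smul, map_zero] at h2

theorem tmul_inj' {K Ω : Type} [Field K] [Field Ω] [Algebra K Ω] {V : Type} [AddCommGroup V]
    [Module K V] {v w : V} (h : (1 : Ω) ⊗ₜ[K] v = (1 : Ω) ⊗ₜ[K] w) : v = w := by
  rw [← sub_eq_zero] at h ⊢
  rw [← TensorProduct.tmul_sub] at h
  exact tmul_inj h

variable {H : Type} [AddCommGroup H] [Module ℚ H] {K : Type} [Field K] [CharZero K] [Algebra K ℂ]
  {T : Type} [AddCommGroup T] [Module ℂ T] {per : H →+ T} {Γ : Type} [Group Γ]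
  {ρ : Representation K Γ (K ⊗[ℚ] H)} {χ : Γ →* K} {G : ℕ} {Z : Matrix (Fin G) (Fin G) ℂ}
  {E : H → H → ℚ} (b : Basis (Fin G ⊕ Fin G) ℚ H)

section form

variable (hb : ∀ p q, E (b q) (b p) = Om G ℚ p q)
  {ω : (K ⊗[ℚ] H) →ₗ[K] (K ⊗[ℚ] H) →ₗ[K] K}
  (hω : ∀ u v : H, ω (1 ⊗ₜ u) (1 ⊗ₜ v) = ((E u v : ℚ) : K))
include hb hω

theorem om_alt (u v : K ⊗[ℚ] H) : ω u v = - ω v u := by
  have h1 := bcb_one (Ω := ℂ) ω u v
  have h2 := bcb_one (Ω := ℂ) ω v u
  rw [weil_om b hb hω] at h1 h2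
  apply (algebraMap K ℂ).injective
  rw [map_neg, ← h1, ← h2, om_anti]

theorem om_ndK (u : K ⊗[ℚ] H) (hu : ∀ v, ω u v = 0) : u = 0 := by
  refine tmul_inj (K := K) (Ω := ℂ) ?_
  apply weil_nd b hb hω
  intro w
  induction w with
  | zero => rw [map_zero]
  | add x y hx hy => rw [map_add, hx, hy, add_zero]
  | tmul c v => rw [bcb_tmul, hu, zero_smul]

end form

variable [Algebra.IsAlgebraic K ℂ]

section main

variable (hb : ∀ p q, E (b q) (b p) = Om G ℚ p q)
  (hC : Cht (per.comp b.equivFun.symm.toLinearMap.toAddMonoidHom) (JR Z))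
  (hρ : IsTateModule per E ρ χ)
include hb hC hρ

/-- The large Lie algebra is completely reducible. -/
theorem cr_lieT : CR (lieT (bcr ρ ℂ) (bcc χ ℂ)) := by
  have hTD := td_of b hb hC hρ
  obtain ⟨ω, hω, hωρ⟩ := hρ.weil
  intro U hU
  obtain ⟨π', h1, h2, h3⟩ := hTD.cr (U.map (eY K b).toLinearMap) (by
    let C : Submodule ℂ (Matrix (Fin G ⊕ Fin G) (Fin G ⊕ Fin G) ℂ) :=
      { carrier := {X | ∀ u ∈ U.map (eY K b).toLinearMap, X *ᵥ u ∈ U.map (eY K b).toLinearMap}
        add_mem' := fun {X Y} hX hY u hu => by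
          rw [add_mulVec]
          exact Submodule.add_mem _ (hX u hu) (hY u hu)
        zero_mem' := fun u _ => by
          rw [zero_mulVec]
          exact Submodule.zero_mem _
        smul_mem' := fun c X hX u hu => by
          rw [smul_mulVec]
          exact Submodule.smul_mem _ _ (hX u hu) }
    have hCL : Y224.TS.LT (SH per ρ χ b) ≤ C := by
      refine LT_le ?_ (fun A hA A' hA' u hu => ?_)
      · rintro _ ⟨σ, h, hh, rfl⟩ _ ⟨w, hw, rfl⟩
        change mt b _ *ᵥ (eY K b w) ∈ _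
        rw [mt_mulVec]
        exact ⟨_, hU _ (ht_lie hh) w hw, rfl⟩
      · rw [sub_mulVec, ← mulVec_mulVec, ← mulVec_mulVec]
        exact Submodule.sub_mem _ (hA _ (hA' u hu)) (hA' _ (hA u hu))
    exact fun X hX => hCL hX)
  let π : Module.End ℂ (ℂ ⊗[K] (K ⊗[ℚ] H)) :=
    (eY K b).symm.toLinearMap ∘ₗ π' ∘ₗ (eY K b).toLinearMap
  have hπ : ∀ v, eY K b (π v) = π' (eY K b v) := fun v => (eY K b).apply_symm_apply _
  have hπU : ∀ v, π v ∈ U := by
    intro v
    obtain ⟨w, hw, hw'⟩ := h2 (eY K b v)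
    rw [← hπ] at hw'
    rwa [← (eY K b).injective hw']
  have hπu : ∀ u ∈ U, π u = u := by
    intro u hu
    apply (eY K b).injective
    rw [hπ]
    exact h3 _ ⟨u, hu, rfl⟩
  obtain ⟨Δ, hΔ, hΔ'⟩ := hρ.serre π (fun σ h hh v => by
    have h4 : ∀ w, π (((2 : ℂ) • h - 1) w) = ((2 : ℂ) • h - 1) (π w) := by
      intro w
      apply (eY K b).injective
      rw [hπ, ← mt_mulVec, h1 _ (LT_gen ⟨σ, h, hh, rfl⟩), ← hπ, mt_mulVec]
    have h5 := h4 v
    simp only [LinearMap.sub_apply, LinearMap.smul_apply, Module.End.one_apply, map_sub,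
      map_smul] at h5
    rw [sub_left_inj] at h5
    exact smul_right_injective _ (two_ne_zero : (2 : ℂ) ≠ 0) h5)
  refine ⟨LinearMap.ker π, fun A hA u hu => ?_, ?_⟩
  · have h4 := lie_comm b hb hω hωρ Δ hΔ π hΔ' hA
    have h5 := LinearMap.congr_fun h4 u
    rw [Module.End.mul_apply, Module.End.mul_apply, LinearMap.mem_ker.1 hu, map_zero] at h5
    rw [LinearMap.mem_ker, ← h5]
  · have h4 := LinearMap.isCompl_of_proj (f := π.codRestrict U hπU)
      fun x => Subtype.ext (hπu x x.2)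
    rwa [LinearMap.ker_codRestrict] at h4

omit hb hC hρ in
include b in
theorem bV_bc : (bV K b).baseChange ℂ = bY K b := by
  apply Basis.eq_of_apply_eq
  intro i
  rw [Basis.baseChange_apply, bV_apply, bY_apply]

omit hb hC hρ in
include b in
/-- Elements of the large Lie algebra are combinations of elements of the small one. -/
theorem lieT_span {X : Module.End ℂ (ℂ ⊗[K] (K ⊗[ℚ] H))}
    (hX : X ∈ lieT (bcr ρ ℂ) (bcc χ ℂ)) :
    ∃ (m : ℕ) (c : Fin m → ℂ) (Y : Fin m → Module.End K (K ⊗[ℚ] H)),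
      (∀ j, Y j ∈ lieT ρ χ) ∧ X = ∑ j, c j • (Y j).baseChange ℂ := by
  obtain ⟨m, c, l, hl⟩ := mat_expand (F := K) (mt b X)
  refine ⟨m, c, fun j => cmE (l j) X, fun j => cmE_lieT (bV K b) hX (l j), ?_⟩
  apply mt_inj b
  have h1 : mt b (∑ j, c j • (cmE (l j) X).baseChange ℂ) =
      ∑ j, c j • mt b ((cmE (l j) X).baseChange ℂ) := by
    unfold Pool.Agent.Y224.TS.mt
    rw [map_sum]
    refine Finset.sum_congr rfl fun j _ => ?_
    rw [map_smul]
  rw [h1, hl]
  refine Finset.sum_congr rfl fun j _ => ?_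
  rw [mt_bc, cmE_mat, bV_bc]
  rfl

/-- Operators which commute with the small Lie algebra commute with a subgroup of finite index. -/
theorem comm_fin {f : Module.End K (K ⊗[ℚ] H)} (hf : ∀ X ∈ lieT ρ χ, f * X = X * f) :
    ∃ Δ : Subgroup Γ, Δ.FiniteIndex ∧ ∀ g ∈ Δ, ∀ v, f (ρ g v) = ρ g (f v) := by
  have h0 : ∀ X ∈ lieT (bcr ρ ℂ) (bcc χ ℂ), f.baseChange ℂ * X = X * f.baseChange ℂ := by
    intro X hX
    obtain ⟨m, c, Y, hY, rfl⟩ := lieT_span b hX
    rw [Finset.mul_sum, Finset.sum_mul]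
    refine Finset.sum_congr rfl fun j _ => ?_
    rw [mul_smul_comm, smul_mul_assoc]
    congr 1
    have h1 := congrArg (fun x : Module.End K (K ⊗[ℚ] H) => x.baseChange ℂ) (hf _ (hY j))
    exact ((LinearMap.baseChange_comp _ _).symm.trans h1).trans (LinearMap.baseChange_comp _ _)
  obtain ⟨Δ, hΔ, h⟩ := hρ.serre (f.baseChange ℂ) (fun σ h hh v => by
    have h1 := LinearMap.congr_fun (h0 _ (ht_lie hh)) v
    simp only [LinearMap.sub_apply, LinearMap.smul_apply, Module.End.one_apply, map_sub,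
      map_smul, Module.End.mul_apply] at h1
    rw [sub_left_inj] at h1
    exact smul_right_injective _ (two_ne_zero : (2 : ℂ) ≠ 0) h1)
  refine ⟨Δ, hΔ, fun g hg v => ?_⟩
  refine tmul_inj' (K := K) (Ω := ℂ) ?_
  have h1 := h g hg ((1 : ℂ) ⊗ₜ[K] v)
  rw [LinearMap.baseChange_tmul, LinearMap.baseChange_tmul, LinearMap.baseChange_tmul,
    LinearMap.baseChange_tmul] at h1
  exact h1

omit hb hC hρ in
include b in
theorem Db_bc {X : Module.End K (K ⊗[ℚ] H)} (hX : X ∈ Db (lieT ρ χ)) :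
    X.baseChange ℂ ∈ Db (lieT (bcr ρ ℂ) (bcc χ ℂ)) := by
  refine Submodule.span_induction
    (p := fun X _ => X.baseChange ℂ ∈ Db (lieT (bcr ρ ℂ) (bcc χ ℂ))) ?_ ?_ ?_ ?_ hX
  · rintro _ ⟨A, hA, B, hB, rfl⟩
    have h1 : (A * B - B * A).baseChange ℂ =
        A.baseChange ℂ * B.baseChange ℂ - B.baseChange ℂ * A.baseChange ℂ := by
      rw [LinearMap.baseChange_sub]
      congr 1
      · exact LinearMap.baseChange_comp _ _
      · exact LinearMap.baseChange_comp _ _
    rw [h1]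
    exact Db_mem (bc_lieT (bV K b) hA) (bc_lieT (bV K b) hB)
  · rw [LinearMap.baseChange_zero]
    exact Submodule.zero_mem _
  · intro x y _ _ h1 h2
    rw [LinearMap.baseChange_add]
    exact Submodule.add_mem _ h1 h2
  · intro c x _ h1
    rw [LinearMap.baseChange_smul, ← algebraMap_smul ℂ c (x.baseChange ℂ)]
    exact Submodule.smul_mem _ _ h1

omit hb hC hρ in
include b in
theorem Db_span {Y : Module.End ℂ (ℂ ⊗[K] (K ⊗[ℚ] H))}
    (hY : Y ∈ Db (lieT (bcr ρ ℂ) (bcc χ ℂ))) :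
    Y ∈ Submodule.span ℂ ((fun X : Module.End K (K ⊗[ℚ] H) => X.baseChange ℂ) ''
      (Db (lieT ρ χ) : Set (Module.End K (K ⊗[ℚ] H)))) := by
  have hle : Db (lieT (bcr ρ ℂ) (bcc χ ℂ)) ≤
      Submodule.span ℂ ((fun X : Module.End K (K ⊗[ℚ] H) => X.baseChange ℂ) ''
      (Db (lieT ρ χ) : Set (Module.End K (K ⊗[ℚ] H)))) := by
    refine Submodule.span_le.2 ?_
    rintro _ ⟨A, hA, B, hB, rfl⟩
    obtain ⟨m, c, A', hA', rfl⟩ := lieT_span b hA
    obtain ⟨n, d, B', hB', rfl⟩ := lieT_span b hB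
    have h1 : (∑ j, c j • (A' j).baseChange ℂ) * (∑ i, d i • (B' i).baseChange ℂ) -
        (∑ i, d i • (B' i).baseChange ℂ) * (∑ j, c j • (A' j).baseChange ℂ) =
        ∑ j, ∑ i, (c j * d i) • ((A' j * B' i - B' i * A' j).baseChange ℂ) := by
      rw [Finset.sum_mul_sum, Finset.sum_mul_sum, Finset.sum_comm (s := Finset.univ (α := Fin n)),
        ← Finset.sum_sub_distrib]
      refine Finset.sum_congr rfl fun j _ => ?_
      rw [← Finset.sum_sub_distrib]
      refine Finset.sum_congr rfl fun i _ => ?_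
      rw [smul_mul_smul_comm, smul_mul_smul_comm, mul_comm (d i)]
      refine (smul_sub _ _ _).symm.trans ?_
      congr 1
      rw [LinearMap.baseChange_sub]
      congr 1
      · exact (LinearMap.baseChange_comp _ _).symm
      · exact (LinearMap.baseChange_comp _ _).symm
    change (∑ j, c j • (A' j).baseChange ℂ) * (∑ i, d i • (B' i).baseChange ℂ) -
        (∑ i, d i • (B' i).baseChange ℂ) * (∑ j, c j • (A' j).baseChange ℂ) ∈ _
    rw [h1]
    exact Submodule.sum_mem _ fun j _ => Submodule.sum_mem _ fun i _ =>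
      Submodule.smul_mem _ _ (Submodule.subset_span ⟨_, Db_mem (hA' j) (hB' i), rfl⟩)
  exact hle hY

/-- The trace form is nondegenerate on the derived algebra of the small Lie algebra. -/
theorem nd_lieT {X : Module.End K (K ⊗[ℚ] H)} (hX : X ∈ Db (lieT ρ χ))
    (hX' : ∀ Y ∈ Db (lieT ρ χ), LinearMap.trace K _ (X * Y) = 0) : X = 0 := by
  have : FiniteDimensional ℂ (ℂ ⊗[K] (K ⊗[ℚ] H)) := Module.Finite.of_basis (bY K b)
  have : FiniteDimensional K (K ⊗[ℚ] H) := Module.Finite.of_basis (bV K b)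
  have h0 : X.baseChange ℂ = 0 := by
    refine nd_of_cr (fun A hA B hB => lieT_bracket _ _ hA hB) (cr_lieT b hb hC hρ) (Db_bc b hX)
      fun Y hY => ?_
    have h1 := Db_span b hY
    refine Submodule.span_induction
      (p := fun Y _ => LinearMap.trace ℂ _ (X.baseChange ℂ * Y) = 0) ?_ ?_ ?_ ?_ h1
    · rintro _ ⟨Y', hY', rfl⟩
      have h2 : X.baseChange ℂ * Y'.baseChange ℂ = (X * Y').baseChange ℂ :=
        (LinearMap.baseChange_comp _ _).symm
      change LinearMap.trace ℂ _ (X.baseChange ℂ * Y'.baseChange ℂ) = 0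
      rw [h2, LinearMap.trace_baseChange, hX' Y' hY', map_zero]
    · rw [mul_zero, map_zero]
    · intro x y _ _ h2 h3
      rw [mul_add, map_add, h2, h3, add_zero]
    · intro c x _ h2
      rw [mul_smul_comm, map_smul, h2, smul_zero]
  refine LinearMap.ext fun v => ?_
  have h1 := LinearMap.congr_fun h0 ((1 : ℂ) ⊗ₜ[K] v)
  rw [LinearMap.baseChange_tmul, LinearMap.zero_apply] at h1
  exact tmul_inj (Ω := ℂ) h1

end main

end

end Pool.Agent.H24CC
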