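import Mathlib
import Pool.Agent.H24CC.C3

/-!
# The Casimir class
-/

set_option autoImplicit false
set_option linter.unusedSectionVars false

namespace Pool.Agent.H24CC

open Matrix Module Pool.Agent.W437.HC Pool.Agent.W437.HD Pool.Agent.W548.Odd Pool.Agent.Y90
open Pool.Agent.H204R3.SP Pool.Agent.H204R3.GP TensorProduct Pool.Agent.W522.U
open Pool.Agent.Y224.TS Pool.Agent.Y224.TS.St
open Pool.Agent.Y90.St (IsHom)

noncomputable section

section gen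

variable {K : Type} [Field K] {V : Type} [AddCommGroup V] [Module K V]
  {Γ : Type} [Group Γ] {ρ : Representation K Γ V} {χ : Γ →* K}

theorem conj_Db (g : Γ) {X : End K V} (hX : X ∈ Db (lieT ρ χ)) :
    ρ g * X * ρ g⁻¹ ∈ Db (lieT ρ χ) := by
  refine Submodule.span_induction
    (p := fun X _ => ρ g * X * ρ g⁻¹ ∈ Db (lieT ρ χ)) ?_ ?_ ?_ ?_ hX
  · rintro _ ⟨A, hA, B, hB, rfl⟩
    have hi : ρ g⁻¹ * ρ g = 1 := LinearMap.ext fun v => rho_inv ρ g v
    have h1 : ρ g * (A * B - B * A) * ρ g⁻¹ = (ρ g * A * ρ g⁻¹) * (ρ g * B * ρ g⁻¹) -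
        (ρ g * B * ρ g⁻¹) * (ρ g * A * ρ g⁻¹) := by
      have h2 : ∀ A B : End K V, (ρ g * A * ρ g⁻¹) * (ρ g * B * ρ g⁻¹) =
          ρ g * (A * B) * ρ g⁻¹ := by
        intro A B
        calc (ρ g * A * ρ g⁻¹) * (ρ g * B * ρ g⁻¹) =
            ρ g * A * (ρ g⁻¹ * ρ g) * B * ρ g⁻¹ := by noncomm_ring
          _ = _ := by
            rw [hi]
            noncomm_ring
      rw [h2, h2]
      noncomm_ring
    rw [h1]
    exact Db_mem (lieT_conj ρ χ g hA) (lieT_conj ρ χ g hB)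
  · rw [mul_zero, zero_mul]
    exact Submodule.zero_mem _
  · intro x y _ _ h1 h2
    rw [mul_add, add_mul]
    exact Submodule.add_mem _ h1 h2
  · intro c x _ h1
    rw [mul_smul_comm, smul_mul_assoc]
    exact Submodule.smul_mem _ _ h1

variable [FiniteDimensional K V] {ω : V →ₗ[K] V →ₗ[K] K}
  (hω : ∀ g u v, ω (ρ g u) (ρ g v) = χ g * ω u v)
  (h : ∀ X ∈ Db (lieT ρ χ), (∀ Y ∈ Db (lieT ρ χ), LinearMap.trace K V (X * Y) = 0) → X = 0)
  {P : End K V →ₗ[K] End K V} (hP : ∀ X, P X ∈ Db (lieT ρ χ))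
  (hP' : ∀ X, ∀ Y ∈ Db (lieT ρ χ), LinearMap.trace K V ((X - P X) * Y) = 0)
include hω h hP hP'

/-- The Casimir form is a Tate form. -/
theorem cas_tate (g : Γ) (v : Fin 2 × Fin 2 → V) :
    ML (cas ω P) (fun k => ρ g (v k)) = χ g ^ 2 * ML (cas ω P) v := by
  have hi : ρ g⁻¹ * ρ g = 1 := LinearMap.ext fun v => rho_inv ρ g v
  have h1 : ∀ a b, ro ω (ρ g a) (ρ g b) = χ g • (ρ g * ro ω a b * ρ g⁻¹) := by
    intro a b
    refine LinearMap.ext fun v => ?_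
    rw [LinearMap.smul_apply, End.mul_apply, End.mul_apply, ro_apply, ro_apply, map_smul,
      smul_smul]
    congr 1
    rw [← hω g b, rho_inv']
  have h2 := proj_conj h hP hP' hi (fun X hX => conj_Db g hX) (fun X hX => by
    have h3 := conj_Db g⁻¹ hX
    rwa [inv_inv] at h3)
  rw [ML_apply, ML_apply, cas_apply, cas_apply, h1, map_smul, h2, LinearMap.smul_apply,
    End.mul_apply, End.mul_apply, rho_inv, map_smul, hω, smul_eq_mul, pow_two, mul_assoc]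

end gen

/-- A form of two variables. -/
theorem tate_BL {K : Type} [Field K] {V : Type} [AddCommGroup V] [Module K V]
    {Γ : Type} [Group Γ] {ρ : Representation K Γ V} {χ : Γ →* K} {β : V →ₗ[K] V →ₗ[K] K}
    {Δ : Subgroup Γ} (hΔ : Δ.FiniteIndex) (h : ∀ g ∈ Δ, ∀ u v, β (ρ g u) (ρ g v) = χ g * β u v) :
    IsTate ρ χ 1 (BL β) := ⟨Δ, hΔ, fun s hs v => by
      rw [BL_apply, BL_apply, pow_one]
      exact h s hs _ _⟩

variable {H : Type} [AddCommGroup H] [Module ℚ H] {K : Type} [Field K] [CharZero K] [Algebra K ℂ]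
  {T : Type} [AddCommGroup T] [Module ℂ T] {per : H →+ T} {Γ : Type} [Group Γ]
  {ρ : Representation K Γ (K ⊗[ℚ] H)} {χ : Γ →* K} {G : ℕ} {Z : Matrix (Fin G) (Fin G) ℂ}
  {E : H → H → ℚ} (b : Basis (Fin G ⊕ Fin G) ℚ H) [Algebra.IsAlgebraic K ℂ]

/-- **The Casimir class.** -/
theorem exists_theta (hb : ∀ p q, E (b q) (b p) = Om G ℚ p q)
    (hC : Cht (per.comp b.equivFun.symm.toLinearMap.toAddMonoidHom) (JR Z))
    (hρ : IsTateModule per E ρ χ) :
    ∃ θ : MultilinearMap K (fun _ : Fin 2 × Fin 2 => K ⊗[ℚ] H) K,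
      (∀ g v, θ (fun k => ρ g (v k)) = χ g ^ 2 * θ v) ∧
      (∀ t : Module.End K (K ⊗[ℚ] H), (∀ φ, IsTate ρ χ 1 φ → Kills t φ) →
        (Kills t θ ↔ ∀ u ∈ lieT ρ χ, t * u - u * t ∈ lieT ρ χ)) ∧
      ∀ t t' : Module.End K (K ⊗[ℚ] H), (∀ φ, IsTate ρ χ 1 φ → Kills t φ) → Kills t θ →
        (∀ φ, IsTate ρ χ 1 φ → Kills t' φ) → Kills t' θ → t * t' - t' * t ∈ lieT ρ χ := by
  have : FiniteDimensional K (K ⊗[ℚ] H) := Module.Finite.of_basis (bV K b)
  obtain ⟨ω, hω, hωρ⟩ := hρ.weil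
  have hnd := om_ndK b hb hω
  have halt := om_alt b hb hω
  have h : ∀ X ∈ Db (lieT ρ χ), (∀ Y ∈ Db (lieT ρ χ), LinearMap.trace K _ (X * Y) = 0) → X = 0 :=
    fun X hX hX' => nd_lieT b hb hC hρ hX hX'
  obtain ⟨P, hP, hP'⟩ := exists_proj _ h
  have key : ∀ t : Module.End K (K ⊗[ℚ] H), (∀ φ, IsTate ρ χ 1 φ → Kills t φ) →
      (∀ u v, ω (t u) v + ω u (t v) = 0) ∧
        ∀ f, (∀ X ∈ lieT ρ χ, f * X = X * f) → t * f = f * t := by
    intro t ht
    have h1 : ∀ u v, ω (t u) v + ω u (t v) = 0 :=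
      BL_kills.1 (ht _ (tate_BL (Δ := ⊤) inferInstance fun g _ u v => hωρ g u v))
    refine ⟨h1, fun f hf => ?_⟩
    obtain ⟨Δ, hΔ, hΔ'⟩ := comm_fin b hb hC hρ hf
    have h2 := BL_kills.1 (ht _ (tate_BL (β := ω ∘ₗ f) hΔ fun g hg u v => by
      rw [LinearMap.comp_apply, LinearMap.comp_apply, hΔ' g hg, hωρ]))
    refine LinearMap.ext fun u => ?_
    rw [← sub_eq_zero]
    apply hnd
    intro v
    have h3 := h1 (f u) v
    have h4 := h2 u v
    rw [LinearMap.comp_apply, LinearMap.comp_apply] at h4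
    rw [End.mul_apply, End.mul_apply, map_sub, LinearMap.sub_apply]
    linear_combination h3 - h4
  have hbr : ∀ A ∈ lieT ρ χ, ∀ B ∈ lieT ρ χ, A * B - B * A ∈ lieT ρ χ :=
    fun A hA B hB => lieT_bracket _ _ hA hB
  refine ⟨ML (cas ω P), fun g v => cas_tate hωρ h hP hP' g v, fun t ht => ?_, ?_⟩
  · obtain ⟨k1, k2⟩ := key t ht
    exact ⟨fun hk => norm_of_comm hbr h hP hP' (cas_kills hnd halt k1 hk) k2,
      fun hn => kills_cas hnd halt k1 (proj_norm hbr h hP hP' hn)⟩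
  intro t t' ht htθ ht' htθ'
  obtain ⟨k1, k2⟩ := key t ht
  obtain ⟨k1', k2'⟩ := key t' ht'
  exact Db_le hbr (bracket_mem hbr h hP hP' (cas_kills hnd halt k1 htθ) k2
    (cas_kills hnd halt k1' htθ') k2')

end

end Pool.Agent.H24CC
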