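import Mathlib
import Pool.Agent.H24GS.St

/-!
# The Casimir class and `ℓ`-Galois special points: definitions

`IsTate ρ χ m φ` (from `Pool.Agent.H204R3.SP.Lie`) says that the form `φ` in `2 m` variables is a Tate
tensor: a subgroup of finite index of `Γ` acts on it through the `m`-th power of `χ`. `Kills t φ` says
that the endomorphism `t`, acting as a derivation, kills `φ`.
-/

namespace Pool.Agent.H24CC.St

open Module TensorProduct
open Pool.Agent.H204R3.SP (IsTate Kills)

variable {K : Type} [Field K] {V : Type} [AddCommGroup V] [Module K V] {Γ : Type} [Group Γ]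

/-- The endomorphism `t` kills the Tate tensors in two variables (for the Tate module of an abelian
variety this means: `t` is skew and commutes with the endomorphisms) and the form `θ`. -/
def KillsOne (ρ : Representation K Γ V) (χ : Γ →* K)
    (θ : MultilinearMap K (fun _ : Fin 2 × Fin 2 => V) K) (t : Module.End K V) : Prop :=
  (∀ φ : MultilinearMap K (fun _ : Fin 1 × Fin 2 => V) K, IsTate ρ χ 1 φ → Kills t φ) ∧ Kills t θ

/-- The endomorphism `t` kills all Tate tensors, in any number of variables: it belongs to the Lie
algebra of the group `G_ℓ`, except for the homotheties. -/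
def KillsAll (ρ : Representation K Γ V) (χ : Γ →* K) (t : Module.End K V) : Prop :=
  ∀ (m : ℕ) (φ : MultilinearMap K (fun _ : Fin m × Fin 2 => V) K), IsTate ρ χ m φ → Kills t φ

/-- `N` is the Lie algebra of the connected monodromy group of the representation `ρ'` of the
geometric fundamental group `P`, and it is perfect (it is semisimple by a theorem of Deligne):
the forms which are fixed by a subgroup of finite index of `P` are killed by `N`, and the elements of
`N` are sums of brackets of elements of `N`. (The converse of the first condition is part of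
`IsFamily`.) -/
structure IsMonodromy {Γ' : Type} [Group Γ'] (ρ' : Representation K Γ' V) (P : Subgroup Γ')
    (N : Set (Module.End K V)) : Prop where
  kills : ∀ (m : ℕ) (φ : MultilinearMap K (fun _ : Fin m × Fin 2 => V) K),
    (∃ P₁ : Subgroup P, P₁.FiniteIndex ∧
      ∀ g ∈ P₁, ∀ v, φ (fun k => ρ' (g : Γ') (v k)) = φ v) → ∀ t ∈ N, Kills t φ
  perfect : ∀ t ∈ N, t ∈ Submodule.span K {u | ∃ a ∈ N, ∃ b ∈ N, u = a * b - b * a}

/-- The Tate tensors in two variables and `θ` are Tate tensors of the family. -/
def Extends {Γ' : Type} [Group Γ'] (ρ : Representation K Γ V) (χ : Γ →* K)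
    (ρ' : Representation K Γ' V) (χ' : Γ' →* K)
    (θ : MultilinearMap K (fun _ : Fin 2 × Fin 2 => V) K) : Prop :=
  (∀ φ : MultilinearMap K (fun _ : Fin 1 × Fin 2 => V) K, IsTate ρ χ 1 φ → IsTate ρ' χ' 1 φ) ∧
    IsTate ρ' χ' 2 θ

/-- The Tate tensors of the fibre are the Tate tensors of the family. -/
def SameAll {Γ' : Type} [Group Γ'] (ρ : Representation K Γ V) (χ : Γ →* K)
    (ρ' : Representation K Γ' V) (χ' : Γ' →* K) : Prop :=
  ∀ (m : ℕ) (φ : MultilinearMap K (fun _ : Fin m × Fin 2 => V) K),
    IsTate ρ χ m φ ↔ IsTate ρ' χ' m φ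

/-- The form `θ` decides:
* it is a Tate tensor, and the whole group `Γ` acts on it through the square of `χ`;
* an endomorphism `t` which kills the Tate tensors in two variables kills `θ` if and only if it
  normalizes the Lie algebra of the endomorphisms which kill all Tate tensors;
* the bracket of two endomorphisms which kill `θ` and the Tate tensors in two variables kills all Tate
  tensors;
* the Tate tensors of the fibre are the Tate tensors of a family as soon as `θ` and the Tate tensors
  in two variables are Tate tensors of the family. -/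
structure Decides (ρ : Representation K Γ V) (χ : Γ →* K)
    (θ : MultilinearMap K (fun _ : Fin 2 × Fin 2 => V) K) : Prop where
  tate : ∀ g v, θ (fun k => ρ g (v k)) = χ g ^ 2 * θ v
  norm : ∀ t : Module.End K V,
    (∀ φ : MultilinearMap K (fun _ : Fin 1 × Fin 2 => V) K, IsTate ρ χ 1 φ → Kills t φ) →
      (Kills t θ ↔ ∀ u, KillsAll ρ χ u → KillsAll ρ χ (t * u - u * t))
  lie : ∀ t t' : Module.End K V, KillsOne ρ χ θ t → KillsOne ρ χ θ t' →
    KillsAll ρ χ (t * t' - t' * t)
  family : ∀ {Γ' : Type} [Group Γ'] (ρ' : Representation K Γ' V) (χ' : Γ' →* K) (s : Γ →* Γ')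
    (P : Subgroup Γ') (N : Set (Module.End K V)), Pool.Agent.N183.U8.IsFamily ρ χ N ρ' χ' s P →
      IsMonodromy ρ' P N → (Extends ρ χ ρ' χ' θ ↔ SameAll ρ χ ρ' χ')

section av

variable [CharZero K]

open Pool.Agent.Y90 Pool.Agent.H24GS.St

/-- The Lie algebra of the Hodge group of `X` kills `θ`: the form `θ` is a combination of Hodge
tensors. -/
def IsHodge (X : AV) (θ : MultilinearMap K (fun _ : Fin 2 × Fin 2 => K ⊗[ℚ] X.H) K) : Prop :=
  ∀ t, InHg X t → Kills (t.baseChange K) θ

/-- The brackets of elements of the Lie algebra of the Hodge group of `X`. They span the Lie algebra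
of the derived group of the Mumford-Tate group of `X`. -/
def brs (X : AV) : Set (Module.End ℚ X.H) :=
  {u | ∃ a b, InHg X a ∧ InHg X b ∧ u = a * b - b * a}

end av

end Pool.Agent.H24CC.St
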