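import Mathlib
import Pool.Agent.H24CC.C4
import Pool.Agent.H24CC.St
import Pool.Agent.H24GS.M4
import Pool.Agent.N183.U8.E4

/-!
# Families and Hodge tensors
-/

set_option autoImplicit false
set_option linter.unusedSectionVars false

namespace Pool.Agent.H24CC

open Matrix Module Pool.Agent.W437.HC Pool.Agent.W437.HD Pool.Agent.W548.Odd
open Pool.Agent.TH504.CB Pool.Agent.H204R3.SP Pool.Agent.H204R3.GP Pool.Agent.Y90 Pool.Agent.Y224.TS TensorProduct
open Pool.Agent.Y224.TS.St (IsHodgeTate IsTateModule)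
open Pool.Agent.R915 (IsFactor commL_of)
open Pool.Agent.N183.TS Pool.Agent.N183.U5 Pool.Agent.N183.U6 Pool.Agent.N183.U8
open Pool.Agent.H24GS Pool.Agent.H24GS.St
open St

noncomputable section

section fam

variable {K : Type} [Field K] {V : Type} [AddCommGroup V] [Module K V] {Γ : Type} [Group Γ]
  {ρ : Representation K Γ V} {χ : Γ →* K}
  {θ : MultilinearMap K (fun _ : Fin 2 × Fin 2 => V) K}

/-- Tate tensors of the family are Tate tensors of the fibre. -/
theorem tate_of_fam {N : Set (Module.End K V)} {Γ' : Type} [Group Γ']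
    {ρ' : Representation K Γ' V} {χ' : Γ' →* K} {s : Γ →* Γ'} {P : Subgroup Γ'}
    (hF : IsFamily ρ χ N ρ' χ' s P) {m : ℕ}
    {φ : MultilinearMap K (fun _ : Fin m × Fin 2 => V) K} (hφ : IsTate ρ' χ' m φ) :
    IsTate ρ χ m φ := by
  obtain ⟨Δ, hΔ, h⟩ := hφ
  refine ⟨Δ.comap s, ⟨by
    rw [Subgroup.index_comap]
    exact (Subgroup.instFiniteIndex_subgroupOf Δ s.range).index_ne_zero⟩, fun g hg v => ?_⟩
  have h1 := h (s g) hg v
  rw [hF.rep, hF.cyc] at h1
  exact h1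

/-- The monodromy kills the Tate tensors of the family. -/
theorem kills_of_fam {N : Set (Module.End K V)} {Γ' : Type} [Group Γ']
    {ρ' : Representation K Γ' V} {χ' : Γ' →* K} {s : Γ →* Γ'} {P : Subgroup Γ'}
    (hF : IsFamily ρ χ N ρ' χ' s P) (hM : IsMonodromy ρ' P N) {m : ℕ}
    {φ : MultilinearMap K (fun _ : Fin m × Fin 2 => V) K} (hφ : IsTate ρ' χ' m φ)
    {t : Module.End K V} (ht : t ∈ N) : Kills t φ := by
  obtain ⟨Δ, hΔ, h⟩ := hφ
  refine hM.kills m φ ⟨Δ.subgroupOf P, inferInstance, fun g hg v => ?_⟩ t ht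
  have h1 := h g (Subgroup.mem_subgroupOf.1 hg) v
  rw [hF.geo g g.2, one_pow, one_mul] at h1
  exact h1

theorem decides_of (h0 : ∀ g v, θ (fun k => ρ g (v k)) = χ g ^ 2 * θ v)
    (hn : ∀ t : Module.End K V, (∀ φ, IsTate ρ χ 1 φ → Kills t φ) →
        (Kills t θ ↔ ∀ u ∈ lieT ρ χ, t * u - u * t ∈ lieT ρ χ))
    (h : ∀ t t' : Module.End K V, KillsOne ρ χ θ t → KillsOne ρ χ θ t' →
      t * t' - t' * t ∈ lieT ρ χ) : Decides ρ χ θ where
  tate := h0
  norm t ht := hn t ht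
  lie t t' ht ht' m φ hφ := h t t' ht ht' m φ hφ
  family := by
    intro Γ' _ ρ' χ' s P N hF hM
    constructor
    · rintro ⟨h1, h2⟩ m φ
      refine ⟨fun hφ => hF.tate hφ fun t ht => ?_, fun hφ => tate_of_fam hF hφ⟩
      have hN : ∀ a ∈ N, KillsOne ρ χ θ a := fun a ha =>
        ⟨fun φ hφ => kills_of_fam hF hM (h1 φ hφ) ha, kills_of_fam hF hM h2 ha⟩
      have hle : Submodule.span K {u | ∃ a ∈ N, ∃ b ∈ N, u = a * b - b * a} ≤ lieT ρ χ := by
        refine Submodule.span_le.2 ?_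
        rintro _ ⟨a, ha, b, hb, rfl⟩
        exact h a b (hN a ha) (hN b hb)
      exact hle (hM.perfect t ht) m φ hφ
    · intro h1
      exact ⟨fun φ hφ => (h1 1 φ).1 hφ, (h1 2 θ).1 ⟨⊤, inferInstance, fun g _ v => h0 g v⟩⟩

end fam

variable {K : Type} [Field K] [CharZero K] [Algebra K ℂ] {Γ : Type} [Group Γ] {X : AV}
  {E : X.H → X.H → ℚ} {ρ : Representation K Γ (K ⊗[ℚ] X.H)} {χ : Γ →* K} {G : ℕ}
  {Z : Matrix (Fin G) (Fin G) ℂ}

/-- The elements of the Hodge Lie algebra are skew. -/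
theorem hg_skew (hZ : PM Z) (b : Basis (Fin G ⊕ Fin G) ℚ X.H)
    (hC : Cht (X.per.comp b.equivFun.symm.toLinearMap.toAddMonoidHom) (JR Z))
    (hb : ∀ p q, E (b q) (b p) = Om G ℚ p q)
    {ω : (K ⊗[ℚ] X.H) →ₗ[K] (K ⊗[ℚ] X.H) →ₗ[K] K}
    (hω : ∀ u v : X.H, ω (1 ⊗ₜ u) (1 ⊗ₜ v) = ((E u v : ℚ) : K)) {t : Module.End ℚ X.H}
    (ht : InHg X t) (u v : K ⊗[ℚ] X.H) :
    ω (t.baseChange K u) v + ω u (t.baseChange K v) = 0 := by
  have h1 := lieM_om hZ ((inHg_iff b hC t).1 ht) (eY K b ((1 : ℂ) ⊗ₜ[K] v))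
    (eY K b ((1 : ℂ) ⊗ₜ[K] u))
  rw [← mt_bc2 (K := K) b t, mt_mulVec, mt_mulVec, LinearMap.baseChange_tmul,
    LinearMap.baseChange_tmul, ← weil_om b hb hω, ← weil_om b hb hω, bcb_one, bcb_one,
    ← map_add] at h1
  have h2 := (map_eq_zero_iff _ (algebraMap K ℂ).injective).1 h1
  rw [add_comm]
  exact h2

/-- The elements of the Hodge Lie algebra kill the Tate tensors in two variables. -/
theorem hg_kills (hZ : PM Z) (b : Basis (Fin G ⊕ Fin G) ℚ X.H)
    (hE : Pool.Agent.Y90.St.IsPolarization X.per E)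
    (hC : Cht (X.per.comp b.equivFun.symm.toLinearMap.toAddMonoidHom) (JR Z))
    (hb : ∀ p q, E (b q) (b p) = Om G ℚ p q) (hρ : IsTateModule X.per E ρ χ)
    {t : Module.End ℚ X.H} (ht : InHg X t)
    {φ : MultilinearMap K (fun _ : Fin 1 × Fin 2 => K ⊗[ℚ] X.H) K} (hφ : IsTate ρ χ 1 φ) :
    Kills (t.baseChange K) φ := by
  have : FiniteDimensional K (K ⊗[ℚ] X.H) := Module.Finite.of_basis (bV K b)
  obtain ⟨β, rfl⟩ := exists_BL φ
  obtain ⟨ω, hω, hωρ⟩ := hρ.weil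
  have hnd := om_ndK b hb hω
  have hinj : Function.Injective ω := by
    rw [← LinearMap.ker_eq_bot, LinearMap.ker_eq_bot']
    intro u hu
    exact hnd u fun v => by rw [hu]; rfl
  have hfin : finrank K (K ⊗[ℚ] X.H) = finrank K ((K ⊗[ℚ] X.H) →ₗ[K] K) :=
    (Subspace.dual_finrank_eq (K := K) (V := K ⊗[ℚ] X.H)).symm
  let e := LinearEquiv.ofBijective ω
    ⟨hinj, (LinearMap.injective_iff_surjective_of_finrank_eq_finrank hfin).1 hinj⟩
  obtain ⟨f, hf⟩ : ∃ f : Module.End K (K ⊗[ℚ] X.H), ∀ u, ω (f u) = β u :=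
    ⟨e.symm.toLinearMap ∘ₗ β, fun u => e.apply_symm_apply (β u)⟩
  obtain ⟨Δ, hΔ, h⟩ := hφ
  have h1 : ∀ g ∈ Δ, ∀ v, ρ g (f v) = f (ρ g v) := by
    intro g hg u
    rw [← sub_eq_zero]
    apply hnd
    intro v
    have h2 := h g hg (vec2 u (ρ g⁻¹ v))
    rw [BL_apply, BL_apply, pow_one] at h2
    change β (ρ g u) (ρ g (ρ g⁻¹ v)) = χ g * β u (ρ g⁻¹ v) at h2
    rw [rho_inv', ← hf, ← hf, ← hωρ, rho_inv'] at h2
    rw [map_sub, LinearMap.sub_apply, h2, sub_self]
  have h2 := hρ.faltings Δ hΔ f h1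
  have h3 : (t.baseChange K : Module.End K (K ⊗[ℚ] X.H)) * f = f * t.baseChange K := by
    refine Submodule.span_induction
      (p := fun f _ => (t.baseChange K : Module.End K (K ⊗[ℚ] X.H)) * f = f * t.baseChange K)
      ?_ ?_ ?_ ?_ h2
    · rintro _ ⟨a, ha, rfl⟩
      have h4 := ht.comm hE (f := a) ha
      have h5 := congrArg (fun x : Module.End ℚ X.H => x.baseChange K) h4
      exact ((LinearMap.baseChange_comp _ _).symm.trans h5).trans (LinearMap.baseChange_comp _ _)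
    · rw [mul_zero, zero_mul]
    · intro x y _ _ hx hy
      rw [mul_add, add_mul, hx, hy]
    · intro c x _ hx
      rw [mul_smul_comm, smul_mul_assoc, hx]
  rw [BL_kills]
  intro u v
  have h4 := hg_skew hZ b hC hb hω ht (f u) v
  have h5 := LinearMap.congr_fun h3 u
  rw [End.mul_apply, End.mul_apply] at h5
  rw [h5, hf, hf] at h4
  exact h4

theorem DS_lieM (σ : ℂ ≃+* ℂ) : DS Z σ ∈ lieM (DZ Z) ℂ := by
  obtain ⟨m, c, l, hl⟩ := mat_exp (DZ Z)
  have h1 : DS Z σ = ∑ j, σ (c j) • qm ((DZ Z).map (l j)) := by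
    have h2 : DS Z σ = (∑ j, c j • qm ((DZ Z).map (l j))).map σ := by
      rw [← hl]
      rfl
    rw [h2]
    ext p q
    rw [Matrix.map_apply, Matrix.sum_apply, Matrix.sum_apply, map_sum]
    refine Finset.sum_congr rfl fun j _ => ?_
    rw [Matrix.smul_apply, Matrix.smul_apply, smul_eq_mul, smul_eq_mul, map_mul]
    congr 1
    exact map_ratCast σ _
  rw [h1]
  exact Submodule.sum_mem _ fun j _ => Submodule.smul_mem _ _ (lieM_map (D_mem _) (l j))

/-- Complete reducibility of the Hodge Lie algebra. -/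
theorem cr_hg (hZ : PM Z) : CR (GG (lieM (DZ Z) ℂ)) := by
  intro U hU
  have hle : LZ Z ≤ lieM (DZ Z) ℂ :=
    LZ_le DS_lieM fun A hA C hC => lieM_bracket _ hA hC
  obtain ⟨π, h1, h2, h3⟩ := hZ.cred U fun X hX u hu => hU _ (mem_GG.2 (hle hX)) u hu
  have hP : ∀ v, LinearMap.toMatrix' π *ᵥ v = π v := fun v => by
    rw [← Matrix.toLin'_apply, Matrix.toLin'_toMatrix']
  have hPX : ∀ X ∈ LZ Z, LinearMap.toMatrix' π * X = X * LinearMap.toMatrix' π := by
    intro X hX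
    apply Matrix.toLin'.injective
    refine LinearMap.ext fun v => ?_
    rw [Matrix.toLin'_apply, Matrix.toLin'_apply, ← mulVec_mulVec, ← mulVec_mulVec, hP, hP]
    exact h1 X hX v
  have hPM : ∀ X ∈ lieM (DZ Z) ℂ, LinearMap.toMatrix' π * X = X * LinearMap.toMatrix' π := by
    intro X hX
    obtain ⟨m, c, Q, hQ, h4⟩ := commutant_expand gal_LZ hPX
    rw [h4, Finset.sum_mul, Finset.mul_sum]
    refine Finset.sum_congr rfl fun j _ => ?_
    rw [smul_mul_assoc, mul_smul_comm, lieM_comm hZ hX (hQ j _ DZ_mem)]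
  refine ⟨LinearMap.ker π, ?_, ?_⟩
  · intro y hy u hu
    obtain ⟨A, hA, rfl⟩ := exists_GG hy
    rw [LinearMap.mem_ker] at hu ⊢
    change π (A *ᵥ u) = 0
    rw [← hP, mulVec_mulVec, hPM A hA, ← mulVec_mulVec, hP, hu, mulVec_zero]
  · have h4 := LinearMap.isCompl_of_proj (f := π.codRestrict U h2)
      fun x => Subtype.ext (h3 x x.2)
    rwa [LinearMap.ker_codRestrict] at h4

/-- If the Hodge Lie algebra is not commutative then some bracket is not an endomorphism. -/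
theorem exists_br (hE : Pool.Agent.Y90.St.IsPolarization X.per E)
    (h : ∃ t t' : Module.End ℚ X.H, InHg X t ∧ InHg X t' ∧ t * t' ≠ t' * t) :
    ∃ t t' : Module.End ℚ X.H, InHg X t ∧ InHg X t' ∧ ¬ IsHom X X (t * t' - t' * t) := by
  obtain ⟨G, Z, hZ, b, hC, hb⟩ := exists_ppav' (AV.isAV X) hE
  obtain ⟨t, t', ht, ht', hne⟩ := h
  refine ⟨t, t', ht, ht', fun hcon => hne (sub_eq_zero.1 ?_)⟩
  have hmem : ∀ t, InHg X t → ph _ (qm (LinearMap.toMatrix b b t)) ∈ GG (lieM (DZ Z) ℂ) :=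
    fun t ht => mem_GG.2 ((inHg_iff b hC t).1 ht)
  have hn : ph (Fin G ⊕ Fin G) (qm (LinearMap.toMatrix b b (t * t' - t' * t))) =
      ph _ (qm (LinearMap.toMatrix b b t)) * ph _ (qm (LinearMap.toMatrix b b t')) -
      ph _ (qm (LinearMap.toMatrix b b t')) * ph _ (qm (LinearMap.toMatrix b b t)) := by
    rw [← map_mul, ← map_mul, ← map_sub, ← qm_mul', ← qm_mul', ← LinearMap.toMatrix_mul,
      ← LinearMap.toMatrix_mul]
    congr 1
    rw [map_sub]
    ext i j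
    simp [qm]
  -- the bracket commutes with the Lie algebra
  have hcomm : ∀ A ∈ GG (lieM (DZ Z) ℂ),
      ph (Fin G ⊕ Fin G) (qm (LinearMap.toMatrix b b (t * t' - t' * t))) * A =
      A * ph (Fin G ⊕ Fin G) (qm (LinearMap.toMatrix b b (t * t' - t' * t))) := by
    intro A hA
    obtain ⟨M, hM, rfl⟩ := exists_GG hA
    rw [← map_mul, ← map_mul]
    congr 1
    exact (lieM_comm hZ hM ((hom_DZ b hC _).1 hcon)).symm
  have h0 : ph (Fin G ⊕ Fin G) (qm (LinearMap.toMatrix b b (t * t' - t' * t))) = 0 := by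
    refine nd_of_cr (L := GG (lieM (DZ Z) ℂ)) ?_ (cr_hg hZ) ?_ ?_
    · intro A hA B hB
      obtain ⟨A, hA', rfl⟩ := exists_GG hA
      obtain ⟨B, hB', rfl⟩ := exists_GG hB
      rw [← map_mul, ← map_mul, ← map_sub]
      exact mem_GG.2 (lieM_bracket _ hA' hB')
    · rw [hn]
      exact Db_mem (hmem t ht) (hmem t' ht')
    · intro Y hY
      refine Submodule.span_induction
        (p := fun Y _ => LinearMap.trace ℂ _
          (ph (Fin G ⊕ Fin G) (qm (LinearMap.toMatrix b b (t * t' - t' * t))) * Y) = 0)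
        ?_ ?_ ?_ ?_ hY
      · rintro _ ⟨A, hA, B, hB, rfl⟩
        rw [mul_sub, map_sub, ← mul_assoc, hcomm A hA, mul_assoc, LinearMap.trace_mul_comm,
          mul_assoc, sub_self]
      · rw [mul_zero, map_zero]
      · intro x y _ _ h2 h3
        rw [mul_add, map_add, h2, h3, add_zero]
      · intro c x _ h2
        rw [mul_smul_comm, map_smul, h2, smul_zero]
  have h1 : qm (LinearMap.toMatrix b b (t * t' - t' * t)) = 0 :=
    (ph (Fin G ⊕ Fin G)).injective (by rw [h0, map_zero])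
  apply (LinearMap.toMatrix b b).injective
  rw [map_zero]
  ext i j
  have h2 := congrFun (congrFun h1 i) j
  change ((LinearMap.toMatrix b b (t * t' - t' * t) i j : ℚ) : ℂ) = 0 at h2
  exact_mod_cast h2

/-- If the Casimir form is killed by the Hodge Lie algebra. -/
theorem hodge_part (hE : Pool.Agent.Y90.St.IsPolarization X.per E)
    (hρ : IsTateModule X.per E ρ χ)
    {θ : MultilinearMap K (fun _ : Fin 2 × Fin 2 => K ⊗[ℚ] X.H) K}
    (h : ∀ t t' : Module.End K (K ⊗[ℚ] X.H), KillsOne ρ χ θ t → KillsOne ρ χ θ t' →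
      t * t' - t' * t ∈ lieT ρ χ)
    (hθ : ∀ t, InHg X t → Kills (t.baseChange K) θ) :
    SameTate ρ χ ((fun t => t.baseChange K) '' brs X) := by
  obtain ⟨G, Z, hZ, b, hC, hb⟩ := exists_ppav' (AV.isAV X) hE
  have hk : ∀ u ∈ (fun t => t.baseChange K) '' brs X, u ∈ lieT ρ χ := by
    rintro _ ⟨_, ⟨t, t', ht, ht', rfl⟩, rfl⟩
    have h1 : ∀ t, InHg X t → KillsOne ρ χ θ (t.baseChange K) := fun t ht =>
      ⟨fun φ hφ => hg_kills hZ b hE hC hb hρ ht hφ, hθ t ht⟩
    have h2 := h _ _ (h1 t ht) (h1 t' ht')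
    have h3 : (t * t' - t' * t).baseChange K = (t.baseChange K : Module.End K (K ⊗[ℚ] X.H)) *
        t'.baseChange K - t'.baseChange K * t.baseChange K := by
      rw [LinearMap.baseChange_sub]
      congr 1
      · exact LinearMap.baseChange_comp _ _
      · exact LinearMap.baseChange_comp _ _
    change (t * t' - t' * t).baseChange K ∈ _
    rw [h3]
    exact h2
  refine ⟨fun m φ hφ t ht => hk t ht m φ hφ, ?_⟩
  intro Γ' _ ρ' χ' s P hF m φ
  exact ⟨fun hφ => hF.tate hφ fun t ht => hk t ht m φ hφ, fun hφ => tate_of_fam hF hφ⟩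

end

end Pool.Agent.H24CC
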