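import Mathlib
import Pool.Agent.H24CC.C5
import Pool.Agent.H24GS.M2

/-!
# The Lie algebra of the Tate tensors and the Hodge Lie algebra
-/

set_option autoImplicit false
set_option linter.unusedSectionVars false

namespace Pool.Agent.H24CC

open Matrix Module Pool.Agent.W437.HC Pool.Agent.W437.HD Pool.Agent.W548.Odd
open Pool.Agent.TH504.CB Pool.Agent.H204R3.SP Pool.Agent.H204R3.GP Pool.Agent.Y90 Pool.Agent.Y224.TS TensorProduct
open Pool.Agent.Y224.TS.St (IsHodgeTate IsTateModule)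
open Pool.Agent.R915 (IsFactor commL_of)
open Pool.Agent.N183.TS Pool.Agent.N183.U5 Pool.Agent.N183.U6 Pool.Agent.N183.U8
open Pool.Agent.H24GS Pool.Agent.H24GS.St
open St

noncomputable section

/-- Descent. -/
theorem lieT_of_bc {K Ω : Type} [Field K] [Field Ω] [Algebra K Ω] {V : Type} [AddCommGroup V]
    [Module K V] {ν : Type} [Fintype ν] [DecidableEq ν] (b : Basis ν K V)
    {Γ : Type} [Group Γ] {ρ : Representation K Γ V} {χ : Γ →* K} {Y : Module.End K V}
    (hY : Y.baseChange Ω ∈ lieT (bcr ρ Ω) (bcc χ Ω)) : Y ∈ lieT ρ χ := by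
  obtain ⟨π, hπ⟩ := LinearMap.exists_leftInverse_of_injective
    ((Algebra.linearMap K Ω)) (LinearMap.ker_eq_bot.2 (algebraMap K Ω).injective)
  have h1 : π 1 = 1 := by
    have h2 := LinearMap.congr_fun hπ 1
    rwa [LinearMap.comp_apply, Algebra.linearMap_apply, map_one, LinearMap.id_apply] at h2
  have h2 := cmE_lieT b hY π
  have h3 : cmE π (Y.baseChange Ω) = Y := by
    refine LinearMap.ext fun v => ?_
    rw [cmE_apply, LinearMap.baseChange_tmul, cmp_tmul, h1, one_smul]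
  rwa [h3] at h2

variable {K : Type} [Field K] [CharZero K] [Algebra K ℂ] {Γ : Type} [Group Γ] {X : AV}
  {E : X.H → X.H → ℚ} {ρ : Representation K Γ (K ⊗[ℚ] X.H)} {χ : Γ →* K} {G : ℕ}
  {Z : Matrix (Fin G) (Fin G) ℂ}

theorem FC_kills' (b : Basis (Fin G ⊕ Fin G) ℚ X.H) {m : ℕ}
    {φ : MultilinearMap K (fun _ : Fin m × Fin 2 => K ⊗[ℚ] X.H) K} (hφ : IsTate ρ χ m φ)
    {x : Module.End ℂ (ℂ ⊗[K] (K ⊗[ℚ] X.H))} (hx : x ∈ lieT (bcr ρ ℂ) (bcc χ ℂ)) :
    Kills (ph (Fin G ⊕ Fin G) (Pool.Agent.Y224.TS.mt b x)) (FC b φ) := by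
  intro v
  obtain ⟨w, rfl⟩ : ∃ w : Fin m × Fin 2 → ℂ ⊗[K] (K ⊗[ℚ] X.H), v = fun k => eY K b (w k) :=
    ⟨fun k => (eY K b).symm (v k), by
      funext k
      exact ((eY K b).apply_symm_apply (v k)).symm⟩
  have h1 := hx m _ (bcm_tate (Ω := ℂ) (bV K b) ρ χ φ hφ) w
  rw [← h1]
  refine Finset.sum_congr rfl fun k _ => ?_
  rw [← FC_e]
  congr 1
  funext l
  by_cases hl : l = k
  · subst hl
    rw [Function.update_self, Function.update_self]
    exact mt_mulVec b _ (w l)
  · rw [Function.update_of_ne hl, Function.update_of_ne hl]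

/-- **The Lie algebra of the Tate tensors is contained in the Hodge Lie algebra.** -/
theorem lieT_lieM (b : Basis (Fin G ⊕ Fin G) ℚ X.H)
    (hC : Cht (X.per.comp b.equivFun.symm.toLinearMap.toAddMonoidHom) (JR Z))
    (hdel : Deligne X ρ χ) {x : Module.End ℂ (ℂ ⊗[K] (K ⊗[ℚ] X.H))}
    (hx : x ∈ lieT (bcr ρ ℂ) (bcc χ ℂ)) : Pool.Agent.Y224.TS.mt b x ∈ lieM (DZ Z) ℂ := by
  intro n c hc
  have hT := hodge_ten hC hc
  rcases Nat.even_or_odd n with ⟨m, hm⟩ | hn
  · have e : Fin m × Fin 2 ≃ Fin n := Fintype.equivOfCardEq (by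
      rw [Fintype.card_prod, Fintype.card_fin, Fintype.card_fin, Fintype.card_fin]
      omega)
    have hc' : IsH (DZ Z) (fun I : Fin m × Fin 2 → Fin G ⊕ Fin G => c (fun k => I (e.symm k))) :=
      isH_reindex (DZ Z) e hc
    obtain ⟨c', hc'e⟩ : ∃ c' : (Fin m × Fin 2 → Fin G ⊕ Fin G) → ℚ,
      c' = fun I => c (fun k => I (e.symm k)) := ⟨_, rfl⟩
    rw [← hc'e] at hc'
    have h1 : IsHodgeTensor X.per ((evalM c').compLinearMap fun _ => b.equivFun.toLinearMap) := by
      refine isHodgeTensor_comp (per := X.per)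
        (per' := X.per.comp b.equivFun.symm.toLinearMap.toAddMonoidHom) b.equivFun.toLinearMap
        LinearMap.id (fun v => ?_) (hodge_ten hC hc')
      change X.per v = X.per (b.equivFun.symm (b.equivFun v))
      rw [LinearEquiv.symm_apply_apply]
    have h2 : IsTate ρ χ m (fK (K := K) b c') := hdel m _ _ h1 fun v => fK_rat b c' v
    have h3 := act_of_kills (FC_kills' b h2 hx)
    have h4 : CF (FC b (fK (K := K) b c')) = cst ℂ c' := by
      funext I
      change FC b (fK (K := K) b c') (fun k => Pi.single (I k) 1) = _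
      have h5 : (fun k => (Pi.single (I k) 1 : Fin G ⊕ Fin G → ℂ)) =
          fun k => Pool.Agent.Y90.cv (Pi.single (I k) 1 : Fin G ⊕ Fin G → ℚ) :=
        funext fun k => (single_cv (I k)).symm
      rw [h5, FC_rat, fK_rat]
      have h6 : (fun k => b.equivFun (b.equivFun.symm (Pi.single (I k) 1 : Fin G ⊕ Fin G → ℚ))) =
          fun k => (Pi.single (I k) 1 : Fin G ⊕ Fin G → ℚ) :=
        funext fun k => b.equivFun.apply_symm_apply _
      rw [h6, evalM_apply, evalF_single, map_ratCast]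
      rfl
    rw [h4] at h3
    have h5 := act_reindex e (Pool.Agent.Y224.TS.mt b x) (cst ℂ c)
    have h6 : (fun I : Fin m × Fin 2 → Fin G ⊕ Fin G => cst ℂ c (fun k => I (e.symm k))) =
        cst ℂ c' := by
      rw [hc'e]
      rfl
    rw [h6, h3] at h5
    funext J
    have h7 := congrFun h5 (fun k => J (e k))
    rw [Pi.zero_apply] at h7 ⊢
    rw [h7]
    congr 1
    funext k
    change J k = J (e (e.symm k))
    rw [Equiv.apply_symm_apply]
  · have h1 := hodge_odd hn hT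
    have h2 : c = 0 := by
      funext I
      rw [← evalF_single c I, ← evalM_apply, h1]
      rfl
    rw [h2, cst_zero, act_zero_right]

theorem bc_br (t t' : Module.End ℚ X.H) :
    (t * t' - t' * t).baseChange K = (t.baseChange K : Module.End K (K ⊗[ℚ] X.H)) *
        t'.baseChange K - t'.baseChange K * t.baseChange K := by
  rw [LinearMap.baseChange_sub]
  congr 1
  · exact LinearMap.baseChange_comp _ _
  · exact LinearMap.baseChange_comp _ _

theorem bc_br' (t t' : Module.End K (K ⊗[ℚ] X.H)) :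
    (t * t' - t' * t).baseChange ℂ = (t.baseChange ℂ : Module.End ℂ (ℂ ⊗[K] (K ⊗[ℚ] X.H))) *
        t'.baseChange ℂ - t'.baseChange ℂ * t.baseChange ℂ := by
  rw [LinearMap.baseChange_sub]
  congr 1
  · exact LinearMap.baseChange_comp _ _
  · exact LinearMap.baseChange_comp _ _

/-- If the brackets of the Hodge Lie algebra kill all Tate tensors then the Hodge Lie algebra
normalizes the Lie algebra of the Tate tensors. -/
theorem hg_norm (b : Basis (Fin G ⊕ Fin G) ℚ X.H)
    (hC : Cht (X.per.comp b.equivFun.symm.toLinearMap.toAddMonoidHom) (JR Z))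
    (hdel : Deligne X ρ χ) (h : ∀ t ∈ brs X, (t.baseChange K) ∈ lieT ρ χ)
    {t : Module.End ℚ X.H} (ht : InHg X t) {u : Module.End K (K ⊗[ℚ] X.H)}
    (hu : u ∈ lieT ρ χ) : t.baseChange K * u - u * t.baseChange K ∈ lieT ρ χ := by
  refine lieT_of_bc (Ω := ℂ) (bV K b) ?_
  have h1 := lieT_lieM b hC hdel (bc_lieT (bV K b) hu)
  obtain ⟨m, c, l, hl⟩ := mat_exp (Pool.Agent.Y224.TS.mt b (u.baseChange ℂ))
  choose s hs using fun j => exists_end b ((Pool.Agent.Y224.TS.mt b (u.baseChange ℂ)).map (l j))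
  have hsH : ∀ j, InHg X (s j) := fun j => by
    rw [inHg_iff b hC, hs]
    exact lieM_map h1 (l j)
  have h2 : u.baseChange ℂ = ∑ j, c j • ((s j).baseChange K).baseChange ℂ := by
    apply mt_inj b
    have h3 : Pool.Agent.Y224.TS.mt b (∑ j, c j • ((s j).baseChange K).baseChange ℂ) =
        ∑ j, c j • Pool.Agent.Y224.TS.mt b (((s j).baseChange K).baseChange ℂ) := by
      unfold Pool.Agent.Y224.TS.mt
      rw [map_sum]
      refine Finset.sum_congr rfl fun j _ => ?_
      rw [map_smul]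
    rw [h3, hl]
    refine Finset.sum_congr rfl fun j _ => ?_
    rw [mt_bc2, hs]
  rw [bc_br', h2, Finset.mul_sum, Finset.sum_mul, ← Finset.sum_sub_distrib]
  refine Submodule.sum_mem _ fun j _ => ?_
  have h4 : (t.baseChange K).baseChange ℂ * (c j • ((s j).baseChange K).baseChange ℂ) -
      (c j • ((s j).baseChange K).baseChange ℂ) * (t.baseChange K).baseChange ℂ =
      c j • (((t * s j - s j * t).baseChange K).baseChange ℂ) := by
    rw [bc_br, bc_br', mul_smul_comm, smul_mul_assoc]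
    exact (smul_sub _ _ _).symm
  rw [h4]
  exact Submodule.smul_mem _ _ (bc_lieT (bV K b) (h _ ⟨t, s j, ht, hsH j, rfl⟩))

/-- **The main theorem.** -/
theorem main [Algebra.IsAlgebraic K ℂ] (hE : Pool.Agent.Y90.St.IsPolarization X.per E)
    (hρ : IsTateModule X.per E ρ χ) (hdel : Deligne X ρ χ) :
    ∃ θ : MultilinearMap K (fun _ : Fin 2 × Fin 2 => K ⊗[ℚ] X.H) K, Decides ρ χ θ ∧
      (IsHodge X θ ↔ ∀ t ∈ brs X, KillsAll ρ χ (t.baseChange K)) ∧
      ((∃ a b, InHg X a ∧ InHg X b ∧ a * b ≠ b * a) → IsHodge X θ →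
        (∃ t ∈ brs X, ¬ IsHom X X t) ∧ SameTate ρ χ ((fun t => t.baseChange K) '' brs X)) := by
  obtain ⟨G, Z, hZ, b, hC, hb⟩ := exists_ppav' (AV.isAV X) hE
  obtain ⟨θ, h0, h1, h2⟩ := exists_theta b hb hC hρ
  have h2' : ∀ t t' : Module.End K (K ⊗[ℚ] X.H), KillsOne ρ χ θ t → KillsOne ρ χ θ t' →
      t * t' - t' * t ∈ lieT ρ χ := fun t t' ht ht' => h2 t t' ht.1 ht.2 ht'.1 ht'.2
  refine ⟨θ, decides_of h0 h1 h2', ?_, fun hne hθ => ⟨?_, hodge_part hE hρ h2' hθ⟩⟩
  · constructor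
    · intro hθ t ht m φ hφ
      exact (hodge_part hE hρ h2' hθ).1 m φ hφ _ ⟨t, ht, rfl⟩
    · intro h t ht
      refine (h1 _ fun φ hφ => hg_kills hZ b hE hC hb hρ ht hφ).2 fun u hu => ?_
      exact hg_norm b hC hdel h ht hu
  · obtain ⟨t, t', ht, ht', h3⟩ := exists_br hE hne
    exact ⟨_, ⟨t, t', ht, ht', rfl⟩, h3⟩

end

end Pool.Agent.H24CC
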